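import Mathlib

/-! Integer descent for `q₁ a² - q₂ b² = ± 4 P` in the three families. -/

namespace Pool.Agent.N156.PQ

/-- From an element of norm `± P` one gets a reduced element of `q₁`-type. `g, h` with
`q₁ g² - q₂ h² = 4 η`, `η = ± 1`. -/
theorem descent {q1 q2 g h η P : ℤ} (hη : η = 1 ∨ η = -1) (hg : q1 * g ^ 2 - q2 * h ^ 2 = 4 * η)
    (hq1 : 0 < q1)
    (par1 : ∀ a b : ℤ, |a ^ 2 - q1 * q2 * b ^ 2| = 4 * P → 2 ∣ g * a - b * h * q2 ∧ 2 ∣ q1 * g * b - h * a)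
    (par2 : ∀ a b : ℤ, |q1 * a ^ 2 - q2 * b ^ 2| = 4 * P → 2 ∣ q1 * a * g - b * h * q2 ∧ 2 ∣ g * b - h * a)
    (small : ∀ a b : ℤ, 0 ≤ a → 0 ≤ b → |a ^ 2 - q1 * q2 * b ^ 2| = 4 * P →
      (q1 * g * b - h * a) ^ 2 < 4 * q1 * b ^ 2) :
    ∀ n : ℕ, (∀ a b : ℤ, 0 ≤ a → 0 ≤ b → |a ^ 2 - q1 * q2 * b ^ 2| = 4 * P → q1 * b ^ 2 < n →
      ∃ a b : ℤ, 0 ≤ a ∧ 0 ≤ b ∧ |q1 * a ^ 2 - q2 * b ^ 2| = 4 * P ∧ 4 * b ^ 2 ≤ q1 * (g * b - h * a) ^ 2) ∧
      (∀ a b : ℤ, 0 ≤ a → 0 ≤ b → |q1 * a ^ 2 - q2 * b ^ 2| = 4 * P → b ^ 2 < n →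
      ∃ a b : ℤ, 0 ≤ a ∧ 0 ≤ b ∧ |q1 * a ^ 2 - q2 * b ^ 2| = 4 * P ∧ 4 * b ^ 2 ≤ q1 * (g * b - h * a) ^ 2) := by
  intro n
  induction n using Nat.strong_induction_on with
  | _ n ih =>
  constructor
  · intro a b ha hb hab hn
    have hs := small a b ha hb hab
    obtain ⟨⟨u, hu⟩, ⟨v, hv⟩⟩ := par1 a b hab
    have hv2 : v ^ 2 < q1 * b ^ 2 := by rw [hv] at hs; nlinarith
    have hnorm : q1 * u ^ 2 - q2 * v ^ 2 = (a ^ 2 - q1 * q2 * b ^ 2) * η := by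
      have h4 : 4 * (q1 * u ^ 2 - q2 * v ^ 2) = (a ^ 2 - q1 * q2 * b ^ 2) * (4 * η) := by
        have : 4 * (q1 * u ^ 2 - q2 * v ^ 2) = q1 * (2 * u) ^ 2 - q2 * (2 * v) ^ 2 := by ring
        rw [this, ← hu, ← hv, ← hg]; ring
      linarith
    have habs : |q1 * |u| ^ 2 - q2 * |v| ^ 2| = 4 * P := by
      rw [sq_abs, sq_abs, hnorm, abs_mul, hab]
      rcases hη with h | h <;> simp [h]
    have hnn : 0 ≤ v ^ 2 := sq_nonneg v
    have hk : (v ^ 2).toNat + 1 < n + 1 := by omega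
    rcases Nat.lt_or_ge ((v ^ 2).toNat + 1) n with hlt | hge
    · exact (ih _ hlt).2 |u| |v| (abs_nonneg _) (abs_nonneg _) habs (by rw [sq_abs]; push_cast; omega)
    · -- `v² + 1 = n`, `v² < q₁ b² < n`: impossible
      exfalso
      have : (n : ℤ) ≤ v ^ 2 + 1 := by omega
      omega
  · intro a b ha hb hab hn
    by_cases hM : 4 * b ^ 2 ≤ q1 * (g * b - h * a) ^ 2
    · exact ⟨a, b, ha, hb, hab, hM⟩
    push Not at hM
    obtain ⟨⟨u, hu⟩, ⟨v, hv⟩⟩ := par2 a b hab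
    have hv2 : q1 * v ^ 2 < b ^ 2 := by rw [hv] at hM; nlinarith
    have hnorm : u ^ 2 - q1 * q2 * v ^ 2 = (q1 * a ^ 2 - q2 * b ^ 2) * η := by
      have h4 : 4 * (u ^ 2 - q1 * q2 * v ^ 2) = (q1 * a ^ 2 - q2 * b ^ 2) * (4 * η) := by
        have : 4 * (u ^ 2 - q1 * q2 * v ^ 2) = (2 * u) ^ 2 - q1 * q2 * (2 * v) ^ 2 := by ring
        rw [this, ← hu, ← hv, ← hg]; ring
      linarith
    have habs : |(|u| ^ 2) - q1 * q2 * |v| ^ 2| = 4 * P := by
      rw [sq_abs, sq_abs, hnorm, abs_mul, hab]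
      rcases hη with h | h <;> simp [h]
    have hnn : 0 ≤ q1 * v ^ 2 := by positivity
    rcases Nat.lt_or_ge ((q1 * v ^ 2).toNat + 1) n with hlt | hge
    · exact (ih _ hlt).1 |u| |v| (abs_nonneg _) (abs_nonneg _) habs (by rw [sq_abs]; push_cast; omega)
    · exfalso
      have : (n : ℤ) ≤ q1 * v ^ 2 + 1 := by omega
      omega

/-- The congruence step. -/
theorem cong_step {q1 q2 a b s P : ℤ} (hP : Prime P) (hP2 : P % 2 = 1) (hP0 : 0 < P) (hPq1 : ¬ P ∣ q1)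
    (ha : 0 ≤ a) (hb : 0 ≤ b) (hs : 0 < s) (hso : s % 2 = 1) (hpar : a % 2 = b % 2)
    (hab : |q1 * a ^ 2 - q2 * b ^ 2| = 4 * P) (hd : P ∣ q1 * s ^ 2 - q2)
    (hbig : 4 * P ^ 2 ≤ |q1 * s ^ 2 - q2|) : 2 * P ≤ a + s * b := by
  have hd1 : P ∣ q1 * a ^ 2 - q2 * b ^ 2 := by
    rw [← dvd_abs, hab]; exact ⟨4, by ring⟩
  have hd2 : P ∣ q1 * ((a - s * b) * (a + s * b)) := by
    have : q1 * ((a - s * b) * (a + s * b)) = (q1 * a ^ 2 - q2 * b ^ 2) - b ^ 2 * (q1 * s ^ 2 - q2) := by ring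
    rw [this]; exact dvd_sub hd1 (hd.mul_left _)
  have hpos : 0 < a + s * b := by
    rcases ha.lt_or_eq with h | h
    · positivity
    · rcases hb.lt_or_eq with h' | h'
      · positivity
      · exfalso; rw [← h, ← h'] at hab; simp at hab; omega
  have hsb : (s * b) % 2 = b % 2 := by rw [Int.mul_emod, hso]; simp
  rcases hP.dvd_or_dvd hd2 with h | h
  · exact absurd h hPq1
  rcases hP.dvd_or_dvd h with h | h
  · -- `a ≡ s b`
    obtain ⟨k, hk⟩ := h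
    have hk2 : k % 2 = 0 := by
      have h1 : (a - s * b) % 2 = 0 := by omega
      rw [hk, Int.mul_emod, hP2] at h1; simpa using h1
    obtain ⟨j, rfl⟩ : ∃ j, k = 2 * j := ⟨k / 2, by omega⟩
    by_cases hj : j = 0
    · exfalso
      subst hj
      have hasb : a = s * b := by linarith
      have h1 : |b ^ 2 * (q1 * s ^ 2 - q2)| = 4 * P := by
        rw [← hab]; congr 1; rw [hasb]; ring
      rw [abs_mul, abs_of_nonneg (sq_nonneg b)] at h1
      have hb1 : 1 ≤ b ^ 2 := by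
        have : b ≠ 0 := by rintro rfl; simp at h1; omega
        have := sq_nonneg b
        have h3 : b ^ 2 ≠ 0 := by positivity
        omega
      have h5 : 4 * P ^ 2 ≤ 4 * P := by nlinarith
      have hP1 : 1 < P := by
        rcases eq_or_ne P 1 with h | h
        · rw [h] at hP; exact absurd hP not_prime_one
        · omega
      nlinarith
    · have h1 : 2 * P ≤ |a - s * b| := by
        rw [hk, show P * (2 * j) = (2 * P) * j by ring, abs_mul, abs_of_pos (by positivity : 0 < 2 * P)]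
        have : 1 ≤ |j| := Int.one_le_abs hj
        nlinarith
      have h2 : |a - s * b| ≤ a + s * b := by
        have : 0 ≤ s * b := by positivity
        rw [abs_le]; constructor <;> linarith
      linarith
  · obtain ⟨k, hk⟩ := h
    have hk2 : k % 2 = 0 := by
      have h1 : (a + s * b) % 2 = 0 := by omega
      rw [hk, Int.mul_emod, hP2] at h1; simpa using h1
    have hkpos : 0 < k := by
      rw [hk] at hpos; by_contra hc; push Not at hc; nlinarith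
    have : 2 ≤ k := by omega
    nlinarith

end Pool.Agent.N156.PQ
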