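import Pool.Agent.N156.PQ.A

namespace Pool.Agent.N156.PQ

theorem sq_le16 {P w : ℤ} (h0 : 0 ≤ w) (h : w ≤ 4 * P) : w ^ 2 ≤ 16 * P ^ 2 := by nlinarith

theorem u_ineq {u : ℤ} (h : 3 ≤ u) : 4 * u ≤ (2 * u - 1) ^ 2 := by nlinarith

/-- Bound of `P`. -/
theorem P_bound {q1 q2 s P : ℤ} (h3 : 3 ≤ q1) (hq2 : 0 < q2) (hs : 0 < s)
    (hsD : 4 * s ^ 2 < q1 * q2) (hbig : 4 * P ^ 2 ≤ |q1 * s ^ 2 - q2|) :
    16 * P ^ 2 < q1 ^ 2 * q2 := by
  rcases abs_cases (q1 * s ^ 2 - q2) with ⟨h, _⟩ | ⟨h, _⟩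
  · rw [h] at hbig
    have : q1 * (4 * s ^ 2) < q1 * (q1 * q2) := by
      apply mul_lt_mul_of_pos_left hsD; omega
    nlinarith
  · rw [h] at hbig
    have h9 : 9 * q2 ≤ q1 ^ 2 * q2 := by
      apply mul_le_mul_of_nonneg_right _ hq2.le; nlinarith
    have : 0 < q1 * s ^ 2 := by positivity
    nlinarith

theorem small1 {q1 q2 σ P a b : ℤ} (h3 : 3 ≤ q1) (hσ : 1 ≤ σ) (hq2 : q2 = q1 * σ ^ 2 + 4)
    (hsq : ∀ c : ℤ, c ^ 2 ≠ P) (hPb : 16 * P ^ 2 < q1 ^ 2 * q2) (ha : 0 ≤ a) (hb : 0 ≤ b)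
    (hab : |a ^ 2 - q1 * q2 * b ^ 2| = 4 * P) : (q1 * σ * b - 1 * a) ^ 2 < 4 * q1 * b ^ 2 := by
  by_contra hc
  push Not at hc
  have hb1 : 1 ≤ b := by
    rcases hb.lt_or_eq with h | h
    · omega
    · exfalso
      rw [← h] at hab
      simp at hab
      obtain ⟨c, rfl⟩ : ∃ c, a = 2 * c := by
        rcases Int.even_or_odd' a with ⟨c, h1 | h1⟩
        · exact ⟨c, h1⟩
        · exfalso; rw [h1] at hab; ring_nf at hab; omega
      exact hsq c (by nlinarith)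
  have hc0 : 0 ≤ q1 * σ * b := by positivity
  obtain ⟨z, hz0, hzz, hz4⟩ : ∃ z : ℤ, 0 ≤ z ∧ 4 * q1 * b ^ 2 ≤ z ^ 2 ∧ q1 * σ * b * z ≤ 4 * P := by
    rcases le_total a (q1 * σ * b) with h | h
    · refine ⟨q1 * σ * b - a, by linarith, by linarith [hc], ?_⟩
      have e : a ^ 2 - q1 * q2 * b ^ 2 = -((q1 * σ * b - a) * (q1 * σ * b + a) + 4 * q1 * b ^ 2) := by
        rw [hq2]; ring
      rw [e, abs_neg] at hab
      have h1 : 0 ≤ (q1 * σ * b - a) * (q1 * σ * b + a) :=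
        mul_nonneg (by linarith) (by linarith)
      have h2 : 0 ≤ 4 * q1 * b ^ 2 := by positivity
      rw [abs_of_nonneg (by linarith)] at hab
      have h5 : 0 ≤ (q1 * σ * b - a) * a := mul_nonneg (by linarith) ha
      nlinarith
    · refine ⟨a - q1 * σ * b, by linarith, by nlinarith [hc], ?_⟩
      have e : a ^ 2 - q1 * q2 * b ^ 2 = (a - q1 * σ * b) ^ 2 + 2 * (q1 * σ * b * (a - q1 * σ * b)) - 4 * q1 * b ^ 2 := by
        rw [hq2]; ring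
      have h1 : 0 ≤ q1 * σ * b * (a - q1 * σ * b) := mul_nonneg hc0 (by linarith)
      have h6 : 4 * q1 * b ^ 2 ≤ (a - q1 * σ * b) ^ 2 := by nlinarith [hc]
      rw [e, abs_of_nonneg (by linarith)] at hab
      linarith
  have h7 := sq_le16 (mul_nonneg hc0 hz0) hz4
  have h8 : (q1 * σ * b) ^ 2 * (4 * q1 * b ^ 2) ≤ (q1 * σ * b * z) ^ 2 := by
    rw [mul_pow (q1 * σ * b) z]; exact mul_le_mul_of_nonneg_left hzz (sq_nonneg _)
  have h9 : 4 * (q1 ^ 3 * σ ^ 2) ≤ (q1 * σ * b) ^ 2 * (4 * q1 * b ^ 2) := by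
    have : (q1 * σ * b) ^ 2 * (4 * q1 * b ^ 2) = 4 * (q1 ^ 3 * σ ^ 2) * b ^ 4 := by ring
    rw [this]
    have hb4 : 1 ≤ b ^ 4 := one_le_pow₀ hb1
    have : 0 ≤ 4 * (q1 ^ 3 * σ ^ 2) := by positivity
    nlinarith
  have h10 : q1 ^ 2 * q2 = q1 ^ 3 * σ ^ 2 + 4 * q1 ^ 2 := by rw [hq2]; ring
  have h11 : 3 * q1 ^ 2 ≤ q1 ^ 3 * σ ^ 2 := by
    have : 1 ≤ σ ^ 2 := one_le_pow₀ hσ
    have h12 : q1 ^ 3 * 1 ≤ q1 ^ 3 * σ ^ 2 := mul_le_mul_of_nonneg_left this (by positivity)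
    nlinarith [sq_nonneg q1]
  nlinarith [sq_nonneg q1]

theorem small2 {q1 q2 σ P a b : ℤ} (h3 : 3 ≤ q1) (hσ : 3 ≤ σ) (hq2 : q2 = q1 * σ ^ 2 - 4)
    (hsq : ∀ c : ℤ, c ^ 2 ≠ P) (hPb : 16 * P ^ 2 < q1 ^ 2 * q2) (ha : 0 ≤ a) (hb : 0 ≤ b)
    (hab : |a ^ 2 - q1 * q2 * b ^ 2| = 4 * P) : (q1 * σ * b - 1 * a) ^ 2 < 4 * q1 * b ^ 2 := by
  by_contra hc
  push Not at hc
  have hb1 : 1 ≤ b := by
    rcases hb.lt_or_eq with h | h
    · omega
    · exfalso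
      rw [← h] at hab
      simp at hab
      obtain ⟨c, rfl⟩ : ∃ c, a = 2 * c := by
        rcases Int.even_or_odd' a with ⟨c, h1 | h1⟩
        · exact ⟨c, h1⟩
        · exfalso; rw [h1] at hab; ring_nf at hab; omega
      exact hsq c (by nlinarith)
  have hc0 : 0 ≤ q1 * σ * b := by positivity
  -- `3 q₁ σ b z ≤ 20 P`
  obtain ⟨z, hz0, hzz, hz4⟩ : ∃ z : ℤ, 0 ≤ z ∧ 4 * q1 * b ^ 2 ≤ z ^ 2 ∧ 3 * (q1 * σ * b * z) ≤ 5 * (4 * P) := by
    rcases le_total a (q1 * σ * b) with h | h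
    · refine ⟨q1 * σ * b - a, by linarith, by linarith [hc], ?_⟩
      set z := q1 * σ * b - a with hz
      have hz0 : 0 ≤ z := by linarith
      have hzz : 4 * q1 * b ^ 2 ≤ z ^ 2 := by nlinarith [hc]
      have e : a ^ 2 - q1 * q2 * b ^ 2 = -(z * (q1 * σ * b + a) - 4 * q1 * b ^ 2) := by
        rw [hq2, hz]; ring
      rw [e, abs_neg] at hab
      have hle : z * (q1 * σ * b + a) - 4 * q1 * b ^ 2 ≤ 4 * P := by rw [← hab]; exact le_abs_self _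
      -- `10 b ≤ 3 z`: `z² ≥ 12 b²`
      have h12 : 12 * b ^ 2 ≤ z ^ 2 := by nlinarith [sq_nonneg b]
      have h10 : 10 * b ≤ 3 * z := by
        by_contra hh
        push Not at hh
        nlinarith
      -- `20 q₁ b² ≤ 2 q₁ σ b z`
      have h20 : 20 * (q1 * b ^ 2) ≤ 2 * (q1 * σ * b * z) := by
        have h21 : 10 * b ≤ σ * z := by nlinarith
        have h22 : 0 ≤ q1 * b := by positivity
        nlinarith
      have h5 : 0 ≤ z * a := mul_nonneg hz0 ha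
      nlinarith
    · refine ⟨a - q1 * σ * b, by linarith, by nlinarith [hc], ?_⟩
      have e : a ^ 2 - q1 * q2 * b ^ 2 = (a - q1 * σ * b) ^ 2 + 2 * (q1 * σ * b * (a - q1 * σ * b)) + 4 * q1 * b ^ 2 := by
        rw [hq2]; ring
      have h1 : 0 ≤ q1 * σ * b * (a - q1 * σ * b) := mul_nonneg hc0 (by linarith)
      have h6 : 0 ≤ 4 * q1 * b ^ 2 := by positivity
      have h7 := sq_nonneg (a - q1 * σ * b)
      rw [e, abs_of_nonneg (by linarith)] at hab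
      linarith
  have h7 : (3 * (q1 * σ * b * z)) ^ 2 ≤ (5 * (4 * P)) ^ 2 :=
    pow_le_pow_left₀ (by positivity) hz4 2
  have h8 : (q1 * σ * b) ^ 2 * (4 * q1 * b ^ 2) ≤ (q1 * σ * b * z) ^ 2 := by
    rw [mul_pow (q1 * σ * b) z]; exact mul_le_mul_of_nonneg_left hzz (sq_nonneg _)
  have h9 : 4 * (q1 ^ 3 * σ ^ 2) ≤ (q1 * σ * b) ^ 2 * (4 * q1 * b ^ 2) := by
    have : (q1 * σ * b) ^ 2 * (4 * q1 * b ^ 2) = 4 * (q1 ^ 3 * σ ^ 2) * b ^ 4 := by ring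
    rw [this]
    have hb4 : 1 ≤ b ^ 4 := one_le_pow₀ hb1
    have : 0 ≤ 4 * (q1 ^ 3 * σ ^ 2) := by positivity
    nlinarith
  have h10 : q1 ^ 2 * q2 = q1 ^ 3 * σ ^ 2 - 4 * q1 ^ 2 := by rw [hq2]; ring
  have h13 : 0 ≤ q1 ^ 3 * σ ^ 2 := by positivity
  nlinarith [sq_nonneg q1]

theorem small3 {q1 q2 t P a b : ℤ} (h3 : 3 ≤ q1) (ht : 1 ≤ t) (hq2 : q2 = 4 * q1 * t ^ 2 - 1)
    (hsq : ∀ c : ℤ, c ^ 2 ≠ P) (hPb : 16 * P ^ 2 < q1 ^ 2 * q2) (ha : 0 ≤ a) (hb : 0 ≤ b)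
    (hab : |a ^ 2 - q1 * q2 * b ^ 2| = 4 * P) : (q1 * (4 * t) * b - 2 * a) ^ 2 < 4 * q1 * b ^ 2 := by
  by_contra hc
  push Not at hc
  have hb1 : 1 ≤ b := by
    rcases hb.lt_or_eq with h | h
    · omega
    · exfalso
      rw [← h] at hab
      simp at hab
      obtain ⟨c, rfl⟩ : ∃ c, a = 2 * c := by
        rcases Int.even_or_odd' a with ⟨c, h1 | h1⟩
        · exact ⟨c, h1⟩
        · exfalso; rw [h1] at hab; ring_nf at hab; omega
      exact hsq c (by nlinarith)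
  set T := 2 * q1 * t * b with hT
  have hT0 : 0 ≤ T := by positivity
  have hcc : q1 * b ^ 2 ≤ (T - a) ^ 2 := by rw [hT]; nlinarith [hc]
  have hq2' : q1 ^ 2 * q2 = 4 * q1 ^ 3 * t ^ 2 - q1 ^ 2 := by rw [hq2]; ring
  have hbT : 6 * b ≤ T := by rw [hT]; nlinarith [mul_le_mul h3 ht (by norm_num) (by linarith)]
  -- a lower bound `q₁ b² + ... `
  rcases le_total a T with h | h
  · set z := T - a with hz
    have hz0 : 0 ≤ z := by linarith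
    have haz : a = T - z := by rw [hz]; ring
    have e : a ^ 2 - q1 * q2 * b ^ 2 = -(z * (2 * T - z) - q1 * b ^ 2) := by
      rw [hq2, haz, hT]; ring
    rw [e, abs_neg] at hab
    have hle : z * (2 * T - z) - q1 * b ^ 2 ≤ 4 * P := by rw [← hab]; exact le_abs_self _
    rcases le_total (2 * z) T with h2 | h2
    · -- `z (2T - z) ≥ (3/2) T z`
      have h4 : 3 * (T * z) ≤ 2 * (z * (2 * T - z)) := by nlinarith
      -- `q₁ b² ≤ b z q₁ · ...`: `5 b ≤ 3 z`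
      have h33 : 3 * b ^ 2 ≤ z ^ 2 := by nlinarith [sq_nonneg b]
      have h53 : 5 * b ≤ 3 * z := by
        by_contra hh
        push Not at hh
        nlinarith
      -- `q₁ b² ≤ (3/5) q₁ b z ≤ (3/10) T z`
      have h44 : 10 * (q1 * b ^ 2) ≤ 3 * (T * z) := by
        have h45 : 2 * (q1 * b) ≤ T := by
          rw [hT]
          have : 2 * (q1 * b) * 1 ≤ 2 * (q1 * b) * t := mul_le_mul_of_nonneg_left ht (by positivity)
          nlinarith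
        have h46 : 5 * b * (2 * (q1 * b)) ≤ 3 * z * T := mul_le_mul h53 h45 (by positivity) (by positivity)
        nlinarith
      -- `6/5 T z ≤ 4 P`
      have h5 : 6 * (T * z) ≤ 5 * (4 * P) := by nlinarith
      have h7 : (6 * (T * z)) ^ 2 ≤ (5 * (4 * P)) ^ 2 := pow_le_pow_left₀ (by positivity) h5 2
      have h8 : T ^ 2 * (q1 * b ^ 2) ≤ (T * z) ^ 2 := by
        rw [mul_pow T z]; exact mul_le_mul_of_nonneg_left hcc (sq_nonneg _)
      have h9 : 4 * (q1 ^ 3 * t ^ 2) ≤ T ^ 2 * (q1 * b ^ 2) := by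
        have : T ^ 2 * (q1 * b ^ 2) = 4 * (q1 ^ 3 * t ^ 2) * b ^ 4 := by rw [hT]; ring
        rw [this]
        have hb4 : 1 ≤ b ^ 4 := one_le_pow₀ hb1
        have : 0 ≤ 4 * (q1 ^ 3 * t ^ 2) := by positivity
        nlinarith
      have h10 : 0 ≤ q1 ^ 3 * t ^ 2 := by positivity
      nlinarith [sq_nonneg q1]
    · -- `z (2T - z) ≥ T² / 2`
      have h4 : T * T ≤ 2 * (z * (2 * T - z)) := by nlinarith
      have h5 : T * T = 4 * q1 ^ 2 * t ^ 2 * b ^ 2 := by rw [hT]; ring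
      have h6 : q1 * (2 * q1 * t ^ 2 - 1) ≤ 4 * P := by
        have hb2 : 1 ≤ b ^ 2 := one_le_pow₀ hb1
        have h60 : 1 * 1 ≤ q1 * t ^ 2 :=
          mul_le_mul (by linarith) (one_le_pow₀ ht) (by norm_num) (by linarith)
        have h61 : 0 ≤ q1 * (2 * q1 * t ^ 2 - 1) := by
          apply mul_nonneg (by linarith)
          linarith
        have h62 : q1 * (2 * q1 * t ^ 2 - 1) * 1 ≤ q1 * (2 * q1 * t ^ 2 - 1) * b ^ 2 :=
          mul_le_mul_of_nonneg_left hb2 h61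
        have e3 : q1 * (2 * q1 * t ^ 2 - 1) * b ^ 2 = 2 * q1 ^ 2 * t ^ 2 * b ^ 2 - q1 * b ^ 2 := by ring
        rw [h5] at h4
        linarith
      have ht2 : 1 ≤ t ^ 2 := one_le_pow₀ ht
      have hqt : 3 * 1 ≤ q1 * t ^ 2 := mul_le_mul h3 ht2 (by norm_num) (by linarith)
      have h61 : 0 ≤ q1 * (2 * q1 * t ^ 2 - 1) := by
        apply mul_nonneg (by linarith); linarith
      have h7 := sq_le16 h61 h6
      -- `q₁² (2 q₁ t² - 1)² < 4 q₁³ t²`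
      have h8 : 4 * (q1 * t ^ 2) ≤ (2 * (q1 * t ^ 2) - 1) ^ 2 := u_ineq (by linarith)
      have h9 : q1 ^ 2 * (4 * (q1 * t ^ 2)) ≤ q1 ^ 2 * (2 * (q1 * t ^ 2) - 1) ^ 2 :=
        mul_le_mul_of_nonneg_left h8 (sq_nonneg _)
      have e1 : (q1 * (2 * q1 * t ^ 2 - 1)) ^ 2 = q1 ^ 2 * (2 * (q1 * t ^ 2) - 1) ^ 2 := by ring
      have e2 : q1 ^ 2 * (4 * (q1 * t ^ 2)) = 4 * q1 ^ 3 * t ^ 2 := by ring
      have h11 := sq_nonneg q1
      linarith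
  · have e : a ^ 2 - q1 * q2 * b ^ 2 = (a - T) ^ 2 + 2 * (T * (a - T)) + q1 * b ^ 2 := by
      rw [hq2, hT]; ring
    have h1 : 0 ≤ T * (a - T) := mul_nonneg hT0 (by linarith)
    have h6 : 0 ≤ q1 * b ^ 2 := by positivity
    have h66 := sq_nonneg (a - T)
    rw [e, abs_of_nonneg (by linarith)] at hab
    have h5 : 2 * (T * (a - T)) ≤ 4 * P := by linarith
    have h7 := sq_le16 (by linarith) h5
    have h8 : T ^ 2 * (q1 * b ^ 2) ≤ (T * (a - T)) ^ 2 := by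
      rw [mul_pow T (a - T)]; apply mul_le_mul_of_nonneg_left _ (sq_nonneg _)
      have : (a - T) ^ 2 = (T - a) ^ 2 := by ring
      rw [this]; exact hcc
    have h9 : 4 * (q1 ^ 3 * t ^ 2) ≤ T ^ 2 * (q1 * b ^ 2) := by
      have : T ^ 2 * (q1 * b ^ 2) = 4 * (q1 ^ 3 * t ^ 2) * b ^ 4 := by rw [hT]; ring
      rw [this]
      have hb4 : 1 ≤ b ^ 4 := one_le_pow₀ hb1
      have : 0 ≤ 4 * (q1 ^ 3 * t ^ 2) := by positivity
      nlinarith
    have h10 : 0 ≤ q1 ^ 3 * t ^ 2 := by positivity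
    nlinarith [sq_nonneg q1]

end Pool.Agent.N156.PQ
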