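import Pool.Agent.N156.PQ.A

namespace Pool.Agent.N156.PQ

/-- The final inequality, form 1. -/
theorem fin1 {q1 q2 σ s a b P : ℤ} (h3 : 3 ≤ q1) (hσ : 1 ≤ σ) (hσo : σ % 2 = 1)
    (hq2 : q2 = q1 * σ ^ 2 + 4) (hs : 0 < s) (hsD : 4 * s ^ 2 < q1 * q2) (ha : 0 ≤ a) (hb : 0 < b)
    (hpar : a % 2 = b % 2) (hab : |q1 * a ^ 2 - q2 * b ^ 2| = 4 * P)
    (hM : 4 * b ^ 2 ≤ q1 * (σ * b - 1 * a) ^ 2) : a + s * b < 2 * P := by
  have hs2 : 2 * s ≤ q1 * σ + 1 := by
    by_contra h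
    push Not at h
    have h1 : (q1 * σ + 2) ^ 2 ≤ (2 * s) ^ 2 := pow_le_pow_left₀ (by positivity) (by linarith) 2
    have h2 : q1 * q2 = (q1 * σ) ^ 2 + 4 * q1 := by rw [hq2]; ring
    have h4 : q1 * 1 ≤ q1 * σ := mul_le_mul_of_nonneg_left hσ (by linarith)
    nlinarith
  have hsb : 2 * (s * b) ≤ (q1 * σ + 1) * b := by
    have := mul_le_mul_of_nonneg_right hs2 hb.le
    nlinarith
  have hσb : b ≤ σ * b := by nlinarith
  have hq1σb : 3 * (σ * b) ≤ q1 * (σ * b) := mul_le_mul_of_nonneg_right h3 (by positivity)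
  have hpp : (σ * b) % 2 = b % 2 := by rw [Int.mul_emod, hσo]; simp
  rcases lt_trichotomy a (σ * b) with h | h | h
  · have hd : 2 ≤ σ * b - a := by omega
    have e : q1 * a ^ 2 - q2 * b ^ 2 = -(q1 * ((σ * b - a) * (σ * b + a)) + 4 * b ^ 2) := by rw [hq2]; ring
    have h1 : 2 * (σ * b) ≤ (σ * b - a) * (σ * b + a) := by nlinarith
    have h2 : q1 * (2 * (σ * b)) ≤ q1 * ((σ * b - a) * (σ * b + a)) := mul_le_mul_of_nonneg_left h1 (by linarith)
    have h5 : 0 ≤ q1 * (σ * b) := by positivity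
    rw [e, abs_neg, abs_of_nonneg (by nlinarith [sq_nonneg b])] at hab
    have hb2 : b ≤ b ^ 2 := by nlinarith
    nlinarith
  · exfalso
    rw [h] at hM
    have : 4 * b ^ 2 ≤ 0 := by nlinarith
    nlinarith
  · obtain ⟨d, hd⟩ : ∃ d, d = a - σ * b := ⟨_, rfl⟩
    have had : a = σ * b + d := by linarith
    have hd2 : 2 ≤ d := by omega
    have hM' : 4 * b ^ 2 ≤ q1 * d ^ 2 := by rw [had] at hM; nlinarith
    have e : q1 * a ^ 2 - q2 * b ^ 2 = 2 * (q1 * (σ * b) * d) + (q1 * d ^ 2 - 4 * b ^ 2) := by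
      rw [hq2, had]; ring
    have h5 : 0 ≤ q1 * (σ * b) * d := by positivity
    rw [e, abs_of_nonneg (by linarith)] at hab
    have h6 : q1 * (σ * b) * 2 ≤ q1 * (σ * b) * d := mul_le_mul_of_nonneg_left hd2 (by positivity)
    have h7 : 3 * (σ * b) * d ≤ q1 * (σ * b) * d := mul_le_mul_of_nonneg_right (by linarith) (by linarith)
    have h8 : b * d ≤ σ * b * d := mul_le_mul_of_nonneg_right hσb (by linarith)
    have h9 : d ≤ b * d := by nlinarith
    nlinarith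

/-- The final inequality, form 2. -/
theorem fin2 {q1 q2 σ s a b P : ℤ} (h3 : 3 ≤ q1) (hσ : 3 ≤ σ) (hσo : σ % 2 = 1)
    (hq2 : q2 = q1 * σ ^ 2 - 4) (hs : 0 < s) (hsD : 4 * s ^ 2 < q1 * q2) (ha : 0 ≤ a) (hb : 0 < b)
    (hpar : a % 2 = b % 2) (hab : |q1 * a ^ 2 - q2 * b ^ 2| = 4 * P)
    (hM : 4 * b ^ 2 ≤ q1 * (σ * b - 1 * a) ^ 2) : a + s * b < 2 * P := by
  have hs2 : 2 * s ≤ q1 * σ := by
    by_contra h
    push Not at h
    have h1 : (q1 * σ) ^ 2 ≤ (2 * s) ^ 2 := pow_le_pow_left₀ (by positivity) (by linarith) 2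
    have h2 : q1 * q2 = (q1 * σ) ^ 2 - 4 * q1 := by rw [hq2]; ring
    nlinarith
  have hsb : 2 * (s * b) ≤ q1 * σ * b := by
    have := mul_le_mul_of_nonneg_right hs2 hb.le
    nlinarith
  have hσb : 3 * b ≤ σ * b := by nlinarith
  have hq1σb : 3 * (σ * b) ≤ q1 * (σ * b) := mul_le_mul_of_nonneg_right h3 (by positivity)
  have hpp : (σ * b) % 2 = b % 2 := by rw [Int.mul_emod, hσo]; simp
  rcases lt_trichotomy a (σ * b) with h | h | h
  · obtain ⟨d, hd⟩ : ∃ d, d = σ * b - a := ⟨_, rfl⟩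
    have had : σ * b = a + d := by linarith
    have hd2 : 2 ≤ d := by omega
    have hM' : 4 * b ^ 2 ≤ q1 * d ^ 2 := by
      have : (σ * b - 1 * a) ^ 2 = d ^ 2 := by rw [hd]; ring
      rw [this] at hM; exact hM
    have e : q1 * a ^ 2 - q2 * b ^ 2 = -(q1 * ((σ * b) ^ 2 - a ^ 2) - 4 * b ^ 2) := by rw [hq2]; ring
    rw [e, abs_neg] at hab
    have hle : q1 * ((σ * b) ^ 2 - a ^ 2) - 4 * b ^ 2 ≤ 4 * P := by rw [← hab]; exact le_abs_self _
    rcases le_total (σ * b) (2 * a) with h2 | h2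
    · have e2 : q1 * ((σ * b) ^ 2 - a ^ 2) = 2 * (q1 * a * d) + q1 * d ^ 2 := by rw [had]; ring
      have h5 : q1 * a * 2 ≤ q1 * a * d := mul_le_mul_of_nonneg_left hd2 (by positivity)
      have h6 : q1 * (σ * b) ≤ q1 * (2 * a) := mul_le_mul_of_nonneg_left h2 (by linarith)
      have ha0 : 0 < a := by nlinarith
      have h7 : 3 * a ≤ q1 * a := mul_le_mul_of_nonneg_right h3 ha
      nlinarith
    · have h5 : 3 * (σ * b) ^ 2 ≤ 4 * ((σ * b) ^ 2 - a ^ 2) := by nlinarith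
      have h6 : q1 * (3 * (σ * b) ^ 2) ≤ q1 * (4 * ((σ * b) ^ 2 - a ^ 2)) := mul_le_mul_of_nonneg_left h5 (by linarith)
      -- `X = σ b ≥ 3 b`: `(3/4) q₁ X² - 4 b² - X - q₁ X > 0`
      obtain ⟨X, hX⟩ : ∃ X, σ * b = X := ⟨_, rfl⟩
      rw [hX] at h h2 h5 h6 hσb hle
      have hX3 : 3 ≤ X := by nlinarith
      have h7 : 9 * b ^ 2 ≤ X ^ 2 := by nlinarith
      have h8 : 3 * X ≤ X ^ 2 := by nlinarith
      have h9 : q1 * (3 * X) ≤ q1 * X ^ 2 := mul_le_mul_of_nonneg_left h8 (by linarith)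
      have h10 : 3 * X ^ 2 ≤ q1 * X ^ 2 := mul_le_mul_of_nonneg_right h3 (sq_nonneg _)
      have h11 : 2 * (s * b) ≤ q1 * X := by rw [← hX]; linarith [hsb, mul_assoc q1 σ b]
      nlinarith
  · exfalso
    rw [h] at hM
    have : 4 * b ^ 2 ≤ 0 := by nlinarith
    nlinarith
  · obtain ⟨d, hd⟩ : ∃ d, d = a - σ * b := ⟨_, rfl⟩
    have had : a = σ * b + d := by linarith
    have hd2 : 2 ≤ d := by omega
    have e : q1 * a ^ 2 - q2 * b ^ 2 = 2 * (q1 * (σ * b) * d) + (q1 * d ^ 2 + 4 * b ^ 2) := by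
      rw [hq2, had]; ring
    have h5 : 0 ≤ q1 * (σ * b) * d := by positivity
    have h51 : 0 ≤ q1 * d ^ 2 := by positivity
    have h52 : 0 ≤ 4 * b ^ 2 := by positivity
    rw [e, abs_of_nonneg (by linarith)] at hab
    have h6 : q1 * (σ * b) * 2 ≤ q1 * (σ * b) * d := mul_le_mul_of_nonneg_left hd2 (by positivity)
    have h7 : 3 * (σ * b) * d ≤ q1 * (σ * b) * d := mul_le_mul_of_nonneg_right (by linarith) (by linarith)
    have h8 : 3 * b * d ≤ σ * b * d := mul_le_mul_of_nonneg_right hσb (by linarith)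
    have h9 : d ≤ b * d := by nlinarith
    nlinarith

/-- The final inequality, form 3. -/
theorem fin3 {q1 q2 t s a b P : ℤ} (h3 : 3 ≤ q1) (ht : 1 ≤ t)
    (hq2 : q2 = 4 * q1 * t ^ 2 - 1) (hs : 0 < s) (hsD : 4 * s ^ 2 < q1 * q2) (ha : 0 ≤ a) (hb : 0 < b)
    (hab : |q1 * a ^ 2 - q2 * b ^ 2| = 4 * P)
    (hM : 4 * b ^ 2 ≤ q1 * (4 * t * b - 2 * a) ^ 2) : a + s * b < 2 * P := by
  have hs2 : s + 1 ≤ q1 * t := by
    by_contra h
    push Not at h
    have h1 : (q1 * t) ^ 2 ≤ s ^ 2 := pow_le_pow_left₀ (by positivity) (by linarith) 2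
    have h2 : q1 * q2 = 4 * (q1 * t) ^ 2 - q1 := by rw [hq2]; ring
    nlinarith
  obtain ⟨X, hX⟩ : ∃ X, X = t * b := ⟨_, rfl⟩
  have hXb : b ≤ X := by rw [hX]; nlinarith
  have hsb : s * b + b ≤ q1 * X := by
    have := mul_le_mul_of_nonneg_right hs2 hb.le
    rw [hX]; nlinarith
  have hX1 : 1 ≤ X := by linarith
  have hM' : b ^ 2 ≤ q1 * (2 * X - a) ^ 2 := by rw [hX]; nlinarith [hM]
  have e : q1 * a ^ 2 - q2 * b ^ 2 = -(4 * q1 * X ^ 2 - b ^ 2 - q1 * a ^ 2) := by rw [hq2, hX]; ring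
  rw [e, abs_neg] at hab
  have hle : 4 * q1 * X ^ 2 - b ^ 2 - q1 * a ^ 2 ≤ 4 * P := by rw [← hab]; exact le_abs_self _
  have hle' : -(4 * q1 * X ^ 2 - b ^ 2 - q1 * a ^ 2) ≤ 4 * P := by rw [← hab]; exact neg_le_abs _
  have hqX : 3 * X ≤ q1 * X := mul_le_mul_of_nonneg_right h3 (by linarith)
  rcases lt_trichotomy a (2 * X) with h | h | h
  · obtain ⟨d, hd⟩ : ∃ d, d = 2 * X - a := ⟨_, rfl⟩
    have had : a = 2 * X - d := by linarith
    rw [← hd] at hM'
    have hd1 : 1 ≤ d := by omega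
    have hd2X : d ≤ 2 * X := by linarith
    have e2 : 4 * q1 * X ^ 2 - b ^ 2 - q1 * a ^ 2 = 4 * (q1 * X * d) - q1 * d ^ 2 - b ^ 2 := by
      rw [had]; ring
    rw [e2] at hle
    -- goal: `2 a + 2 s b < 4 P`
    suffices hh : 2 * a + 2 * (q1 * X - b) < 4 * (q1 * X * d) - q1 * d ^ 2 - b ^ 2 by linarith
    rcases lt_or_ge 1 d with h2 | h2
    · have hd2 : 2 ≤ d := h2
      have hbd : b ≤ q1 * d := by
        by_contra hc
        push Not at hc
        have : (q1 * d) ^ 2 < b ^ 2 := by nlinarith [mul_nonneg (by linarith : (0:ℤ) ≤ q1) (by linarith : (0:ℤ) ≤ d)]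
        have h31 : q1 * d ^ 2 ≤ (q1 * d) ^ 2 := by
          have : (q1 * d) ^ 2 = q1 * (q1 * d ^ 2) := by ring
          rw [this]
          have : 0 ≤ q1 * d ^ 2 := by positivity
          nlinarith
        linarith
      have hb2 : b ^ 2 ≤ q1 * X * d := by
        have : b * b ≤ X * (q1 * d) := mul_le_mul hXb hbd hb.le (by linarith)
        nlinarith
      have hprod : 0 ≤ q1 * ((d - 2) * (2 * X - d)) :=
        mul_nonneg (by linarith) (mul_nonneg (by linarith) (by linarith))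
      have e3 : q1 * ((d - 2) * (2 * X - d)) = 2 * (q1 * X * d) - q1 * d ^ 2 - 4 * (q1 * X) + 2 * (q1 * d) := by ring
      have h4 : 2 * (q1 * X) ≤ q1 * X * d := by nlinarith [mul_nonneg (by linarith : (0:ℤ) ≤ q1) (by linarith : (0:ℤ) ≤ X)]
      have h5 : q1 * d ≤ q1 * X * d := by
        have : q1 * d * 1 ≤ q1 * d * X := mul_le_mul_of_nonneg_left hX1 (by positivity)
        nlinarith
      have h6 : q1 * d ≤ 2 * (q1 * X) := by
        have : q1 * d ≤ q1 * (2 * X) := mul_le_mul_of_nonneg_left hd2X (by linarith)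
        linarith
      rcases lt_or_ge 1 X with hX2 | hX2
      · have h7 : q1 * d * 2 ≤ q1 * d * X := mul_le_mul_of_nonneg_left hX2 (by positivity)
        nlinarith
      · have hX11 : X = 1 := by linarith
        have hb11 : b = 1 := by linarith
        have hd22 : d = 2 := by linarith
        subst hX11 hb11 hd22
        nlinarith
    · have hd11 : d = 1 := by linarith
      subst hd11
      have h4 : (2 * q1 - 4) * b ≤ (2 * q1 - 4) * X := mul_le_mul_of_nonneg_left hXb (by linarith)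
      rcases lt_or_ge 1 b with hb2 | hb2
      · have h5 : 2 ≤ b := hb2
        nlinarith
      · have hb11 : b = 1 := by linarith
        subst hb11
        nlinarith
  · exfalso
    rw [h] at hM'
    have : b ^ 2 ≤ 0 := by nlinarith
    nlinarith
  · obtain ⟨d, hd⟩ : ∃ d, d = a - 2 * X := ⟨_, rfl⟩
    have had : a = 2 * X + d := by linarith
    have hd1 : 1 ≤ d := by omega
    have e2 : -(4 * q1 * X ^ 2 - b ^ 2 - q1 * a ^ 2) = 4 * (q1 * X * d) + q1 * d ^ 2 + b ^ 2 := by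
      rw [had]; ring
    rw [e2] at hle'
    have h4 : q1 * X * 1 ≤ q1 * X * d := mul_le_mul_of_nonneg_left hd1 (by positivity)
    have h5 : 3 * X * d ≤ q1 * X * d := mul_le_mul_of_nonneg_right hqX (by linarith)
    have h6 : 3 * 1 * d ≤ 3 * X * d := mul_le_mul_of_nonneg_right (by linarith) (by linarith)
    have h7 : X * 1 ≤ X * d := mul_le_mul_of_nonneg_left hd1 (by linarith)
    have h8 : 0 ≤ q1 * d ^ 2 := by positivity
    have h9 : 0 ≤ b ^ 2 := by positivity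
    nlinarith

end Pool.Agent.N156.PQ
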