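import Pool.Agent.N156.PQ.B
import Pool.Agent.N156.PQ.C

namespace Pool.Agent.N156.PQ

/-- The three forms of `D = q₁ q₂`. -/
def Forms (q1 q2 : ℤ) : Prop :=
  ∃ s : ℤ, q1 * q2 = q1 ^ 2 * s ^ 2 + 4 * q1 ∨ q1 * q2 = q1 ^ 2 * s ^ 2 - 4 * q1 ∨
    q1 * q2 = 4 * q1 ^ 2 * s ^ 2 - q1

theorem sq_ne_prime {P : ℤ} (hP : Prime P) (c : ℤ) : c ^ 2 ≠ P := by
  rintro rfl
  have h := hP.irreducible
  have := h.isUnit_or_isUnit (show c ^ 2 = c * c by ring)
  have hu : IsUnit c := by tauto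
  exact hP.not_isUnit (hu.pow 2)

theorem odd_par {D a b P : ℤ} (hD : D % 2 = 1) (h : |a ^ 2 - D * b ^ 2| = 4 * P) : a % 2 = b % 2 := by
  have h2 : (2 : ℤ) ∣ a ^ 2 - D * b ^ 2 := by rw [← dvd_abs, h]; exact ⟨2 * P, by ring⟩
  rcases Int.emod_two_eq_zero_or_one a with ha | ha <;>
  rcases Int.emod_two_eq_zero_or_one b with hb | hb
  · rw [ha, hb]
  · exfalso
    have : (a ^ 2 - D * b ^ 2) % 2 = 1 := by simp [Int.sub_emod, Int.mul_emod, pow_two, ha, hb, hD]
    omega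
  · exfalso
    have : (a ^ 2 - D * b ^ 2) % 2 = 1 := by simp [Int.sub_emod, Int.mul_emod, pow_two, ha, hb, hD]
    omega
  · rw [ha, hb]

theorem odd_par2 {q1 q2 a b P : ℤ} (h1 : q1 % 2 = 1) (hD : q2 % 2 = 1) (h : |q1 * a ^ 2 - q2 * b ^ 2| = 4 * P) :
    a % 2 = b % 2 := by
  have h2 : (2 : ℤ) ∣ q1 * a ^ 2 - q2 * b ^ 2 := by rw [← dvd_abs, h]; exact ⟨2 * P, by ring⟩
  rcases Int.emod_two_eq_zero_or_one a with ha | ha <;>
  rcases Int.emod_two_eq_zero_or_one b with hb | hb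
  · rw [ha, hb]
  · exfalso
    have : (q1 * a ^ 2 - q2 * b ^ 2) % 2 = 1 := by simp [Int.sub_emod, Int.mul_emod, pow_two, ha, hb, hD, h1]
    omega
  · exfalso
    have : (q1 * a ^ 2 - q2 * b ^ 2) % 2 = 1 := by simp [Int.sub_emod, Int.mul_emod, pow_two, ha, hb, hD, h1]
    omega
  · rw [ha, hb]

/-- The heart: no prime `P` with `P² ≤ |F|` divides `F`, if `P` is the norm of an integer. -/
theorem no_small {q1 q2 s P : ℤ} (h3 : 3 ≤ q1) (h1o : q1 % 2 = 1) (h2o : q2 % 2 = 1) (h12 : q1 < q2)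
    (hF : Forms q1 q2) (hP : Prime P) (hP0 : 0 < P) (hPo : P % 2 = 1) (hPq1 : ¬ P ∣ q1)
    (hs : 0 < s) (hso : s % 2 = 1) (hsD : 4 * s ^ 2 < q1 * q2) (hd : P ∣ q1 * s ^ 2 - q2)
    (hbig : 4 * P ^ 2 ≤ |q1 * s ^ 2 - q2|) (hex : ∃ a b : ℤ, |a ^ 2 - q1 * q2 * b ^ 2| = 4 * P) : False := by
  have hq20 : 0 < q2 := by linarith
  have hDo : (q1 * q2) % 2 = 1 := by rw [Int.mul_emod, h1o, h2o]; rfl
  have hPb := P_bound h3 hq20 hs hsD hbig
  have hsq := sq_ne_prime hP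
  obtain ⟨a0, b0, hab0⟩ := hex
  have hab0' : |(|a0|) ^ 2 - q1 * q2 * |b0| ^ 2| = 4 * P := by rw [sq_abs, sq_abs]; exact hab0
  have bpos : ∀ a b : ℤ, 0 ≤ a → 0 ≤ b → |q1 * a ^ 2 - q2 * b ^ 2| = 4 * P → 0 < b := by
    intro a b ha hb hab
    rcases hb.lt_or_eq with h | h
    · exact h
    · exfalso
      rw [← h] at hab
      have h5 : q1 * a ^ 2 = 4 * P := by
        have h6 : 0 ≤ q1 * a ^ 2 := by positivity
        rw [← hab, show q1 * a ^ 2 - q2 * 0 ^ 2 = q1 * a ^ 2 by ring, abs_of_nonneg h6]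
      have h7 : P ∣ q1 * a ^ 2 := ⟨4, by rw [h5]; ring⟩
      rcases hP.dvd_or_dvd h7 with h8 | h8
      · exact hPq1 h8
      · have h9 := hP.dvd_of_dvd_pow h8
        obtain ⟨k, rfl⟩ := h9
        have h10 : q1 * P * k ^ 2 = 4 := by
          have : P * (q1 * P * k ^ 2) = P * 4 := by nlinarith
          exact mul_left_cancel₀ hP0.ne' this
        have hk : k ≠ 0 := by rintro rfl; simp at h10
        have hk2 : 1 ≤ k ^ 2 := by have := sq_nonneg k; have : k ^ 2 ≠ 0 := by positivity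
                                   omega
        have hP3 : 3 ≤ P := by
          by_contra hc
          have : P = 1 := by omega
          rw [this] at hP; exact not_prime_one hP
        nlinarith [mul_le_mul h3 hP3 (by norm_num) (by linarith)]
  obtain ⟨σ0, hf⟩ := hF
  have hq10 : q1 ≠ 0 := by linarith
  have key : ∀ g h η : ℤ, (η = 1 ∨ η = -1) → q1 * g ^ 2 - q2 * h ^ 2 = 4 * η →
    (∀ a b : ℤ, |a ^ 2 - q1 * q2 * b ^ 2| = 4 * P → 2 ∣ g * a - b * h * q2 ∧ 2 ∣ q1 * g * b - h * a) →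
    (∀ a b : ℤ, |q1 * a ^ 2 - q2 * b ^ 2| = 4 * P → 2 ∣ q1 * a * g - b * h * q2 ∧ 2 ∣ g * b - h * a) →
    (∀ a b : ℤ, 0 ≤ a → 0 ≤ b → |a ^ 2 - q1 * q2 * b ^ 2| = 4 * P →
      (q1 * g * b - h * a) ^ 2 < 4 * q1 * b ^ 2) →
    (∀ a b : ℤ, 0 ≤ a → 0 < b → a % 2 = b % 2 → |q1 * a ^ 2 - q2 * b ^ 2| = 4 * P →
      4 * b ^ 2 ≤ q1 * (g * b - h * a) ^ 2 → a + s * b < 2 * P) → False := by
    intro g h η hη hg hp1 hp2 hsm hfin
    have hd := descent hη hg (by linarith) hp1 hp2 hsm ((q1 * |b0| ^ 2).toNat + 1)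
    have h0 : 0 ≤ q1 * |b0| ^ 2 := by positivity
    obtain ⟨a, b, ha, hb, hab, hM⟩ := hd.1 |a0| |b0| (abs_nonneg _) (abs_nonneg _) hab0' (by push_cast; omega)
    have hpar := odd_par2 h1o h2o hab
    have hlo := cong_step hP hPo hP0 hPq1 ha hb hs hso hpar hab ‹P ∣ q1 * s ^ 2 - q2› hbig
    have := hfin a b ha (bpos a b ha hb hab) hpar hab hM
    linarith
  rcases hf with hf | hf | hf
  · -- form 1
    obtain ⟨σ, hσ0, hσ2⟩ : ∃ σ : ℤ, 0 ≤ σ ∧ σ ^ 2 = σ0 ^ 2 := ⟨|σ0|, abs_nonneg _, sq_abs _⟩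
    have hq2 : q2 = q1 * σ ^ 2 + 4 := by
      apply mul_left_cancel₀ hq10; rw [hf, hσ2]; ring
    have hσo : σ % 2 = 1 := by
      rcases Int.emod_two_eq_zero_or_one σ with h | h
      · exfalso
        have : q2 % 2 = 0 := by rw [hq2]; simp [Int.add_emod, Int.mul_emod, pow_two, h]
        omega
      · exact h
    have hσ1 : 1 ≤ σ := by omega
    refine key σ 1 (-1) (Or.inr rfl) (by rw [hq2]; ring) ?_ ?_ ?_ ?_
    · intro a b hab
      have hpar := odd_par hDo hab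
      constructor
      · apply Int.dvd_of_emod_eq_zero
        rcases Int.emod_two_eq_zero_or_one a with h | h <;> rw [h] at hpar <;>
          simp [Int.sub_emod, Int.mul_emod, hσo, h2o, h, ← hpar]
      · apply Int.dvd_of_emod_eq_zero
        rcases Int.emod_two_eq_zero_or_one a with h | h <;> rw [h] at hpar <;>
          simp [Int.sub_emod, Int.mul_emod, hσo, h1o, h, ← hpar]
    · intro a b hab
      have hpar := odd_par2 h1o h2o hab
      constructor
      · apply Int.dvd_of_emod_eq_zero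
        rcases Int.emod_two_eq_zero_or_one a with h | h <;> rw [h] at hpar <;>
          simp [Int.sub_emod, Int.mul_emod, hσo, h2o, h1o, h, ← hpar]
      · apply Int.dvd_of_emod_eq_zero
        rcases Int.emod_two_eq_zero_or_one a with h | h <;> rw [h] at hpar <;>
          simp [Int.sub_emod, Int.mul_emod, hσo, h, ← hpar]
    · intro a b ha hb hab
      exact small1 h3 hσ1 hq2 hsq hPb ha hb hab
    · intro a b ha hb hpar hab hM
      exact fin1 h3 hσ1 hσo hq2 hs hsD ha hb hpar hab hM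
  · -- form 2
    obtain ⟨σ, hσ0, hσ2⟩ : ∃ σ : ℤ, 0 ≤ σ ∧ σ ^ 2 = σ0 ^ 2 := ⟨|σ0|, abs_nonneg _, sq_abs _⟩
    have hq2 : q2 = q1 * σ ^ 2 - 4 := by
      apply mul_left_cancel₀ hq10; rw [hf, hσ2]; ring
    have hσo : σ % 2 = 1 := by
      rcases Int.emod_two_eq_zero_or_one σ with h | h
      · exfalso
        have : q2 % 2 = 0 := by rw [hq2]; simp [Int.sub_emod, Int.mul_emod, pow_two, h]
        omega
      · exact h
    have hσ1 : 3 ≤ σ := by
      by_contra hc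
      have : σ = 1 := by omega
      subst this
      linarith
    refine key σ 1 1 (Or.inl rfl) (by rw [hq2]; ring) ?_ ?_ ?_ ?_
    · intro a b hab
      have hpar := odd_par hDo hab
      constructor
      · apply Int.dvd_of_emod_eq_zero
        rcases Int.emod_two_eq_zero_or_one a with h | h <;> rw [h] at hpar <;>
          simp [Int.sub_emod, Int.mul_emod, hσo, h2o, h, ← hpar]
      · apply Int.dvd_of_emod_eq_zero
        rcases Int.emod_two_eq_zero_or_one a with h | h <;> rw [h] at hpar <;>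
          simp [Int.sub_emod, Int.mul_emod, hσo, h1o, h, ← hpar]
    · intro a b hab
      have hpar := odd_par2 h1o h2o hab
      constructor
      · apply Int.dvd_of_emod_eq_zero
        rcases Int.emod_two_eq_zero_or_one a with h | h <;> rw [h] at hpar <;>
          simp [Int.sub_emod, Int.mul_emod, hσo, h2o, h1o, h, ← hpar]
      · apply Int.dvd_of_emod_eq_zero
        rcases Int.emod_two_eq_zero_or_one a with h | h <;> rw [h] at hpar <;>
          simp [Int.sub_emod, Int.mul_emod, hσo, h, ← hpar]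
    · intro a b ha hb hab
      exact small2 h3 hσ1 hq2 hsq hPb ha hb hab
    · intro a b ha hb hpar hab hM
      exact fin2 h3 hσ1 hσo hq2 hs hsD ha hb hpar hab hM
  · -- form 3
    obtain ⟨t, ht0, ht2⟩ : ∃ t : ℤ, 0 ≤ t ∧ t ^ 2 = σ0 ^ 2 := ⟨|σ0|, abs_nonneg _, sq_abs _⟩
    have hq2 : q2 = 4 * q1 * t ^ 2 - 1 := by
      apply mul_left_cancel₀ hq10; rw [hf, ht2]; ring
    have ht1 : 1 ≤ t := by
      by_contra hc
      have : t = 0 := by omega
      subst this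
      linarith
    refine key (4 * t) 2 1 (Or.inl rfl) (by rw [hq2]; ring) ?_ ?_ ?_ ?_
    · intro a b _
      exact ⟨⟨2 * t * a - b * q2, by ring⟩, ⟨2 * q1 * t * b - a, by ring⟩⟩
    · intro a b _
      exact ⟨⟨2 * q1 * a * t - b * q2, by ring⟩, ⟨2 * t * b - a, by ring⟩⟩
    · intro a b ha hb hab
      exact small3 h3 ht1 hq2 hsq hPb ha hb hab
    · intro a b ha hb _ hab hM
      exact fin3 h3 ht1 hq2 hs hsD ha hb hab hM

end Pool.Agent.N156.PQ
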