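import Pool.Agent.N156.PQ.D
import Pool.Agent.H419R2.A2

namespace Pool.Agent.N156.PQ

open H419R2

theorem isDomain_of' {m R D : ℤ} (hDm : D = m ^ 2 + 4 * R) (hsf : Squarefree D) (hD1 : 1 < D) :
    IsDomain (QA R m) := by
  have hns := not_sq_of_squarefree hsf hD1
  have hn : ∀ z : QA R m, QuadraticAlgebra.norm z = 0 → z = 0 := by
    intro z hz
    rw [norm_eq] at hz
    have h1 : (2 * z.re + m * z.im) ^ 2 = D * z.im ^ 2 := by rw [hDm]; linear_combination 4 * hz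
    have him : z.im = 0 := by
      by_contra h
      apply hns
      refine ⟨(2 * z.re + m * z.im) / z.im, ?_⟩
      have h' : (z.im : ℚ) ≠ 0 := by exact_mod_cast h
      have h2 : (2 * (z.re : ℚ) + m * z.im) ^ 2 = D * (z.im : ℚ) ^ 2 := by exact_mod_cast h1
      field_simp
      linear_combination h2
    have hre : z.re = 0 := by
      rw [him] at h1
      have : (2 * z.re) ^ 2 = 0 := by linear_combination h1
      have := pow_eq_zero_iff (two_ne_zero) |>.mp this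
      omega
    ext
    · simpa using hre
    · simpa using him
  have : NoZeroDivisors (QA R m) := by
    refine ⟨?_⟩
    intro a b hab
    have : QuadraticAlgebra.norm a * QuadraticAlgebra.norm b = 0 := by
      rw [← map_mul, hab]; simp
    rcases mul_eq_zero.mp this with h | h
    · left; exact hn a h
    · right; exact hn b h
  exact NoZeroDivisors.to_isDomain _

/-- The polynomial `F(n) = q₁ n² + q₁ n + (q₁ - q₂)/4`. -/
def F (q₁ q₂ : ℕ) (n : ℕ) : ℤ := q₁ * (n : ℤ) ^ 2 + q₁ * n + ((q₁ : ℤ) - q₂) / 4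

section
variable {q₁ q₂ : ℕ}

theorem four_F (h14 : q₁ % 4 = 3) (h24 : q₂ % 4 = 3) (n : ℕ) :
    4 * F q₁ q₂ n = q₁ * (2 * (n : ℤ) + 1) ^ 2 - q₂ := by
  unfold F
  have : 4 * (((q₁ : ℤ) - q₂) / 4) = (q₁ : ℤ) - q₂ := by omega
  linear_combination this

theorem F_odd (h14 : q₁ % 4 = 3) (h24 : q₂ % 4 = 3) (h8 : (q₁ * q₂) % 8 = 5) (n : ℕ) :
    F q₁ q₂ n % 2 = 1 := by
  have h4 := four_F h14 h24 n
  obtain ⟨k, hk⟩ : ∃ k : ℤ, (n : ℤ) * (n + 1) = 2 * k := by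
    obtain ⟨k, hk⟩ := Int.even_mul_succ_self (n : ℤ)
    exact ⟨k, by rw [hk]; ring⟩
  have h5 : (q₁ : ℤ) * (2 * (n : ℤ) + 1) ^ 2 = 8 * (q₁ * k) + q₁ := by
    have : (2 * (n : ℤ) + 1) ^ 2 = 8 * k + 1 := by linear_combination 4 * hk
    rw [this]; ring
  rw [h5] at h4
  have h6 : ((q₁ : ℤ) - q₂) % 8 = 4 := by
    have h7 : q₁ % 8 = 3 ∨ q₁ % 8 = 7 := by omega
    have h9 : q₂ % 8 = 3 ∨ q₂ % 8 = 7 := by omega
    rw [Nat.mul_mod] at h8
    rcases h7 with h7 | h7 <;> rcases h9 with h9 | h9 <;> rw [h7, h9] at h8 <;> omega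
  omega

/-- `(2) ⇒ (1)`. -/
theorem dir21 (h1 : q₁.Prime) (h2 : q₂.Prime) (hlt : q₁ < q₂)
    (h14 : q₁ % 4 = 3) (h24 : q₂ % 4 = 3) (h8 : (q₁ * q₂) % 8 = 5)
    {K : Type*} [Field K] [NumberField K] (hK : Module.finrank ℚ K = 2) {x : K}
    (hx : x ^ 2 = ((q₁ * q₂ : ℕ) : K)) (hcl : NumberField.classNumber K = 1)
    (hF : Forms q₁ q₂) (n : ℕ) (hn : (n : ℝ) < (√((q₁ * q₂ : ℕ) : ℝ) - 2) / 4) :
    (F q₁ q₂ n).natAbs = 1 ∨ (F q₁ q₂ n).natAbs.Prime := by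
  have h4 := four_F h14 h24 n
  have hodd := F_odd h14 h24 h8 n
  by_contra hc
  push Not at hc
  obtain ⟨hc1, hc2⟩ := hc
  set N := (F q₁ q₂ n).natAbs with hN
  have hNabs : (N : ℤ) = |F q₁ q₂ n| := by rw [hN]; exact Int.natCast_natAbs _
  have hN0 : 0 < N := by
    rw [hN]; apply Int.natAbs_pos.mpr; intro h; rw [h] at hodd; norm_num at hodd
  set p := N.minFac with hp
  have hpp : p.Prime := Nat.minFac_prime hc1
  have hpN : p ∣ N := Nat.minFac_dvd N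
  have hp2 : p ^ 2 ≤ N := Nat.minFac_sq_le_self hN0 hc2
  have hpF : (p : ℤ) ∣ F q₁ q₂ n := by
    rw [← dvd_abs, ← hNabs]; exact_mod_cast hpN
  have hpo : p % 2 = 1 := by
    rcases hpp.eq_two_or_odd with h | h
    · exfalso
      rw [h] at hpF
      have : F q₁ q₂ n % 2 = 0 := Int.emod_eq_zero_of_dvd (by exact_mod_cast hpF)
      omega
    · exact h
  have h13 : 3 ≤ q₁ := by have := h1.two_le; omega
  have hpq1 : ¬ (p : ℤ) ∣ (q₁ : ℤ) := by
    intro h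
    have h' : p ∣ q₁ := by exact_mod_cast h
    have hpe : p = q₁ := (Nat.prime_dvd_prime_iff_eq hpp h1).mp h'
    have h5 : (p : ℤ) ∣ (q₂ : ℤ) := by
      have : (q₂ : ℤ) = q₁ * (2 * (n : ℤ) + 1) ^ 2 - 4 * F q₁ q₂ n := by linarith
      rw [this]
      exact dvd_sub (h.mul_right _) (hpF.mul_left _)
    have h6 : p = q₂ := (Nat.prime_dvd_prime_iff_eq hpp h2).mp (by exact_mod_cast h5)
    omega
  -- the norm equation
  have hDz : ((q₁ * q₂ : ℕ) : ℤ) = 1 ^ 2 + 4 * ((((q₁ * q₂ : ℕ) : ℤ) - 1) / 4) := by omega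
  have hsf : Squarefree ((q₁ * q₂ : ℕ) : ℤ) := by
    rw [Int.squarefree_natCast]
    exact (Nat.squarefree_mul ((Nat.coprime_primes h1 h2).mpr (by omega))).mpr ⟨h1.squarefree, h2.squarefree⟩
  have hD1 : (1 : ℤ) < ((q₁ * q₂ : ℕ) : ℤ) := by
    have : 1 * 1 < q₁ * q₂ := Nat.mul_lt_mul'' (by omega) (by omega)
    exact_mod_cast this
  have i1 : IsDomain (QA ((((q₁ * q₂ : ℕ) : ℤ) - 1) / 4) 1) := isDomain_of' hDz hsf hD1
  have i2 : IsPrincipalIdealRing (QA ((((q₁ * q₂ : ℕ) : ℤ) - 1) / 4) 1) :=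
    pid_of_classNumber_one (by norm_num) hDz hsf hD1 hK (by rw [hx]; simp) hcl
  obtain ⟨w, hw⟩ : ∃ w : ℤ, (q₁ : ℤ) * (2 * n + 1) = 2 * w + 1 :=
    ⟨((q₁ : ℤ) * (2 * n + 1) - 1) / 2, by
      have : ((q₁ : ℤ) * (2 * n + 1)) % 2 = 1 := by rw [Int.mul_emod]; have : (q₁ : ℤ) % 2 = 1 := by omega
                                                    rw [this]; have : (2 * (n : ℤ) + 1) % 2 = 1 := by omega
                                                    rw [this]; rfl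
      omega⟩
  have hdvd : (p : ℤ) ∣ w ^ 2 + 1 * w - (((q₁ * q₂ : ℕ) : ℤ) - 1) / 4 := by
    have h5 : w ^ 2 + 1 * w - (((q₁ * q₂ : ℕ) : ℤ) - 1) / 4 = q₁ * F q₁ q₂ n := by
      have h6 : 4 * ((((q₁ * q₂ : ℕ) : ℤ) - 1) / 4) = (q₁ : ℤ) * q₂ - 1 := by push_cast at hDz ⊢; linarith
      have h7 : 4 * (w ^ 2 + 1 * w - (((q₁ * q₂ : ℕ) : ℤ) - 1) / 4) = 4 * (q₁ * F q₁ q₂ n) := by
        have : 4 * (q₁ * F q₁ q₂ n) = (2 * w + 1) ^ 2 - (q₁ : ℤ) * q₂ := by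
          rw [← hw]; linear_combination (q₁ : ℤ) * h4
        rw [this]; linear_combination -h6
      linarith
    rw [h5]; exact hpF.mul_left _
  obtain ⟨z, hz⟩ := exists_norm_prime hpp hdvd
  have hex : ∃ a b : ℤ, |a ^ 2 - (q₁ : ℤ) * q₂ * b ^ 2| = 4 * (p : ℤ) := by
    refine ⟨2 * z.re + z.im, z.im, ?_⟩
    have h5 : (2 * z.re + z.im) ^ 2 - (q₁ : ℤ) * q₂ * z.im ^ 2 = 4 * QuadraticAlgebra.norm z := by
      rw [norm_eq]
      have e : (q₁ : ℤ) * q₂ = ((q₁ * q₂ : ℕ) : ℤ) := by push_cast; ring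
      rw [e]
      linear_combination -z.im ^ 2 * hDz
    rw [h5, abs_mul, ← hz, Int.natCast_natAbs]
    norm_num
  -- the size of `2 n + 1`
  have hs4 : 4 * (2 * (n : ℤ) + 1) ^ 2 < (q₁ : ℤ) * q₂ := by
    have h5 : (2 * (2 * (n : ℝ) + 1)) < √((q₁ * q₂ : ℕ) : ℝ) := by linarith
    have h6 : (2 * (2 * (n : ℝ) + 1)) ^ 2 < ((q₁ * q₂ : ℕ) : ℝ) := by
      have := pow_lt_pow_left₀ h5 (by positivity) (two_ne_zero)
      rwa [Real.sq_sqrt (by positivity)] at this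
    have h7 : (4 * (2 * (n : ℝ) + 1) ^ 2) < (q₁ : ℝ) * q₂ := by push_cast at h6; linarith
    exact_mod_cast h7
  have hbig : 4 * (p : ℤ) ^ 2 ≤ |(q₁ : ℤ) * (2 * (n : ℤ) + 1) ^ 2 - q₂| := by
    rw [← h4, abs_mul, ← hNabs]
    have : ((p ^ 2 : ℕ) : ℤ) ≤ (N : ℤ) := by exact_mod_cast hp2
    push_cast at this
    simp only [Nat.abs_ofNat]
    linarith
  exact no_small (q1 := (q₁ : ℤ)) (q2 := (q₂ : ℤ)) (s := 2 * (n : ℤ) + 1) (P := (p : ℤ))
    (by exact_mod_cast h13) (by omega) (by omega) (by exact_mod_cast hlt) hF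
    (Nat.prime_iff_prime_int.mp hpp) (by exact_mod_cast hpp.pos) (by omega) hpq1 (by positivity) (by omega)
    hs4 (by rw [← h4]; exact hpF.mul_left _) hbig hex

end

end Pool.Agent.N156.PQ
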