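import Pool.Agent.N156.PQ.E

namespace Pool.Agent.N156.PQ

section
variable {q : ℕ}

/-- divisibility in the family -/
theorem prime_of_dvd {q₁ q₂ n : ℕ} {r : ℕ} (hr : r.Prime) (h : (r : ℤ) ∣ F q₁ q₂ n)
    (hF : (F q₁ q₂ n).natAbs = 1 ∨ (F q₁ q₂ n).natAbs.Prime) : (F q₁ q₂ n).natAbs = r := by
  have h1 : r ∣ (F q₁ q₂ n).natAbs := Int.natCast_dvd.mp h
  rcases hF with h2 | h2
  · rw [h2] at h1
    exact absurd (Nat.dvd_one.mp h1) hr.ne_one
  · exact ((Nat.prime_dvd_prime_iff_eq hr h2).mp h1).symm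

theorem exists_s {r T : ℤ} (hrpos : 0 < r) (hro : r % 2 = 1) :
    ∃ s : ℤ, 1 ≤ s ∧ s ≤ r ∧ s % 2 = 1 ∧ r ∣ s ^ 2 - (2 * T) ^ 2 := by
  obtain ⟨ρ, k, h0, h1, hk⟩ : ∃ ρ k : ℤ, 0 ≤ ρ ∧ ρ < r ∧ 2 * T - ρ = r * k :=
    ⟨(2 * T) % r, (2 * T) / r, Int.emod_nonneg _ hrpos.ne', Int.emod_lt_of_pos _ hrpos, by
      have := Int.emod_add_mul_ediv (2 * T) r
      linarith⟩
  rcases Int.emod_two_eq_zero_or_one ρ with h | h
  · refine ⟨r - ρ, by omega, by omega, by omega, ?_⟩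
    exact ⟨(1 + k) * (r - ρ - 2 * T), by linear_combination (r - ρ - 2 * T) * hk⟩
  · refine ⟨ρ, by omega, by omega, h, ?_⟩
    exact ⟨-k * (ρ + 2 * T), by linear_combination -(ρ + 2 * T) * hk⟩

theorem cop4 {r : ℤ} (hro : r % 2 = 1) : IsCoprime r 4 := by
  have : IsCoprime r 2 := ⟨1, -(r / 2), by omega⟩
  have h6 := this.mul_right this
  norm_num at h6
  exact h6

theorem bounds_e {T e : ℤ} (hT3 : 3 ≤ T) (hA0 : 0 < 3 * T + e) (hB0 : 0 < 3 * T - e)
    (hA : 3 * (12 * T ^ 2 + 4 * e + 3) ≤ 4 * (4 * T + 2 * e + 1) ^ 2)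
    (hB : 3 * (12 * T ^ 2 + 4 * e + 3) ≤ 4 * (4 * T - 2 * e - 1) ^ 2) :
    -2 * T < 4 * e + 3 ∧ 4 * e + 3 < 2 * T ∧ -T ≤ e := by
  have hlo1 : -T ≤ e := by
    by_contra hc
    push Not at hc
    rcases le_total 0 (4 * T + 2 * e + 1) with h | h
    · nlinarith
    · nlinarith
  have hlo : -2 * T < 4 * e + 3 := by
    by_contra hc
    push Not at hc
    have h5 : 0 ≤ 4 * T + 2 * e + 1 := by linarith
    have h6 : 2 * (4 * T + 2 * e + 1) ≤ 6 * T - 1 := by linarith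
    nlinarith
  have hhi : 4 * e + 3 < 2 * T := by
    by_contra hc
    push Not at hc
    have he0 : 0 ≤ e := by omega
    rcases le_total 0 (4 * T - 2 * e - 1) with h | h
    · have h6 : 4 * T - 2 * e - 1 ≤ 3 * T := by omega
      nlinarith
    · have h6 : -(4 * T - 2 * e - 1) ≤ 3 * T := by linarith
      nlinarith
  exact ⟨hlo, hhi, hlo1⟩

/-- for `q₁ = 3` condition (1) forces one of the three forms -/
theorem forms3 (hq : q.Prime) (h3 : 3 < q) (h24 : q % 4 = 3) (h8 : (3 * q) % 8 = 5)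
    (H : ∀ n : ℕ, 4 * (2 * (n : ℤ) + 1) ^ 2 < 3 * q → (F 3 q n).natAbs = 1 ∨ (F 3 q n).natAbs.Prime) :
    Forms (3 : ℕ) q := by
  have h4 : ∀ n : ℕ, 4 * F 3 q n = 3 * (2 * (n : ℤ) + 1) ^ 2 - q := fun n => by
    have := four_F (q₁ := 3) (q₂ := q) (by norm_num) h24 n
    exact_mod_cast this
  have h3q : ¬ (3 : ℤ) ∣ (q : ℤ) := by
    intro h
    have h' : 3 ∣ q := by exact_mod_cast h
    have := (Nat.prime_dvd_prime_iff_eq Nat.prime_three hq).mp h'
    omega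
  -- the position `t`
  have hex : ∃ t : ℕ, q < 3 * (2 * t + 1) ^ 2 := ⟨q, by nlinarith⟩
  obtain ⟨t, ht1, ht2⟩ : ∃ t : ℕ, q < 3 * (2 * t + 1) ^ 2 ∧ ∀ m < t, ¬ q < 3 * (2 * m + 1) ^ 2 := by
    classical
    exact ⟨Nat.find hex, Nat.find_spec hex, fun m hm => Nat.find_min hex hm⟩
  have ht0 : t ≠ 0 := by rintro rfl; norm_num at ht1; omega
  obtain ⟨m, rfl⟩ : ∃ m, t = m + 1 := ⟨t - 1, by omega⟩
  have hm := ht2 m (by omega)
  push Not at hm
  -- integers
  obtain ⟨T, hT⟩ : ∃ T : ℤ, T = (m : ℤ) + 1 := ⟨_, rfl⟩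
  have hT1 : 1 ≤ T := by omega
  have hmz : 3 * (2 * T - 1) ^ 2 ≤ (q : ℤ) := by
    have : ((3 * (2 * m + 1) ^ 2 : ℕ) : ℤ) ≤ (q : ℤ) := by exact_mod_cast hm
    push_cast at this
    have e : (2 * T - 1) = 2 * (m : ℤ) + 1 := by rw [hT]; ring
    rw [e]; exact this
  have hmlt : 3 * (2 * T - 1) ^ 2 < (q : ℤ) := by
    rcases hmz.lt_or_eq with h | h
    · exact h
    · exact absurd ⟨(2 * T - 1) ^ 2, h.symm⟩ h3q
  have htlt : (q : ℤ) < 3 * (2 * T + 1) ^ 2 := by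
    have : (q : ℤ) < ((3 * (2 * (m + 1) + 1) ^ 2 : ℕ) : ℤ) := by exact_mod_cast ht1
    push_cast at this
    rw [hT]; exact this
  obtain ⟨e, he⟩ : ∃ e : ℤ, (q : ℤ) = 12 * T ^ 2 + 4 * e + 3 := by
    refine ⟨((q : ℤ) - 3 - 12 * T ^ 2) / 4, ?_⟩
    have : ((q : ℤ) - 3 - 12 * T ^ 2) % 4 = 0 := by
      have h5 : (q : ℤ) % 4 = 3 := by omega
      omega
    omega
  have hA0 : 0 < 3 * T + e := by nlinarith
  have hB0 : 0 < 3 * T - e := by nlinarith
  -- the two neighbours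
  have hFm : F 3 q m = -(3 * T + e) := by
    have := h4 m
    rw [he] at this
    have e1 : 2 * (m : ℤ) + 1 = 2 * T - 1 := by rw [hT]; ring
    rw [e1] at this
    nlinarith
  have hFm1 : F 3 q (m + 1) = 3 * T - e := by
    have := h4 (m + 1)
    rw [he] at this
    have e1 : 2 * ((m + 1 : ℕ) : ℤ) + 1 = 2 * T + 1 := by rw [hT]; push_cast; ring
    rw [e1] at this
    nlinarith
  by_cases hA1 : 3 * T + e = 1
  · refine ⟨2 * T - 1, Or.inl ?_⟩
    have : e = 1 - 3 * T := by linarith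
    rw [he, this]; push_cast; ring
  by_cases hB1 : 3 * T - e = 1
  · refine ⟨2 * T + 1, Or.inr (Or.inl ?_)⟩
    have : e = 3 * T - 1 := by linarith
    rw [he, this]; push_cast; ring
  by_cases he1 : e = -1
  · refine ⟨T, Or.inr (Or.inr ?_)⟩
    rw [he, he1]; push_cast; ring
  exfalso
  have hr0 : 4 * (2 * (m : ℤ) + 1) ^ 2 < 3 * q := by
    have e1 : 2 * (m : ℤ) + 1 = 2 * T - 1 := by rw [hT]; ring
    rw [e1]; nlinarith [sq_nonneg (2 * T - 1)]
  have hAp : (3 * T + e).natAbs.Prime := by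
    rcases H m hr0 with h | h
    · exfalso
      rw [hFm, Int.natAbs_neg] at h
      omega
    · rwa [hFm, Int.natAbs_neg] at h
  have hq8 : (q : ℤ) % 8 = 7 := by omega
  rcases lt_or_ge T 3 with hT3 | hT3
  · -- small cases
    have hTc : T = 1 ∨ T = 2 := by omega
    rcases hTc with rfl | rfl
    · -- `q = 4 e + 15 < 27`, `q ≡ 7 mod 8`, `q > 3`
      have : e = -2 ∨ e = 0 ∨ e = 2 := by omega
      rcases this with rfl | rfl | rfl
      · omega
      · have hq15 : q = 15 := by omega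
        rw [hq15] at hq; norm_num at hq
      · omega
    · -- `q = 51 + 4 e`, `27 < q < 75`
      have : e = -5 ∨ e = -3 ∨ e = -1 ∨ e = 1 ∨ e = 3 ∨ e = 5 := by omega
      rcases this with rfl | rfl | rfl | rfl | rfl | rfl
      · omega
      · have hq15 : q = 39 := by omega
        rw [hq15] at hq; norm_num at hq
      · omega
      · have hq15 : q = 55 := by omega
        rw [hq15] at hq; norm_num at hq
      · have hq15 : q = 63 := by omega
        rw [hq15] at hq; norm_num at hq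
      · omega
  -- range of `m + 1`
  have hr1 : 4 * (2 * ((m + 1 : ℕ) : ℤ) + 1) ^ 2 < 3 * q := by
    have e1 : 2 * ((m + 1 : ℕ) : ℤ) + 1 = 2 * T + 1 := by rw [hT]; push_cast; ring
    rw [e1, he]; nlinarith
  have hBp : (3 * T - e).natAbs.Prime := by
    rcases H (m + 1) hr1 with h | h
    · exfalso
      rw [hFm1] at h
      omega
    · rwa [hFm1] at h
  -- a point `s` with `F = x y`
  have gen : ∀ s x y : ℤ, s % 2 = 1 → 4 * s ^ 2 < 3 * q → 3 * s ^ 2 - q = 4 * (x * y) →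
      x.natAbs.Prime → y.natAbs = 1 := by
    intro s x y hs hsq hxy hx
    obtain ⟨n, hn⟩ : ∃ n : ℕ, (2 * (n : ℤ) + 1) ^ 2 = s ^ 2 := by
      rcases le_total 0 s with h | h
      · exact ⟨((s - 1) / 2).toNat, by
          have : 2 * (((s - 1) / 2).toNat : ℤ) + 1 = s := by omega
          rw [this]⟩
      · exact ⟨((-s - 1) / 2).toNat, by
          have : 2 * (((-s - 1) / 2).toNat : ℤ) + 1 = -s := by omega
          rw [this]; ring⟩
    have hFn : F 3 q n = x * y := by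
      have := h4 n
      rw [hn] at this
      linarith
    have := H n (by rw [hn]; exact hsq)
    have h5 := prime_of_dvd hx (by rw [hFn]; exact (Int.natAbs_dvd.mpr (dvd_mul_right x y))) this
    rw [hFn, Int.natAbs_mul] at h5
    exact Nat.eq_of_mul_eq_mul_left hx.pos (by rw [h5]; ring)
  -- the bound from `A`
  have hA : 3 * (q : ℤ) ≤ 4 * (4 * T + 2 * e + 1) ^ 2 := by
    by_contra hc
    push Not at hc
    have h5 := gen (4 * T + 2 * e + 1) (3 * T + e) (3 * (T + e + 1) - 1) (by omega) hc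
      (by rw [he]; ring) hAp
    have h6 : 3 * (T + e + 1) - 1 = 1 ∨ 3 * (T + e + 1) - 1 = -1 := by omega
    have h7 : e = -T - 1 := by omega
    -- `A = 2T - 1` divides `q`
    have h8' : (q : ℤ) = (2 * T - 1) * (6 * T + 1) := by rw [he, h7]; ring
    have h9 : (2 * T - 1).natAbs ∣ q := by
      have : (2 * T - 1) ∣ (q : ℤ) := ⟨_, h8'⟩
      exact Int.natAbs_dvd_natAbs.mpr this
    rcases (Nat.dvd_prime hq).mp h9 with h | h
    · omega
    · have : (q : ℤ) = 2 * T - 1 := by omega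
      nlinarith
  have hB : 3 * (q : ℤ) ≤ 4 * (4 * T - 2 * e - 1) ^ 2 := by
    by_contra hc
    push Not at hc
    have h5 := gen (4 * T - 2 * e - 1) (3 * T - e) (3 * (T - e - 1) + 1) (by omega) hc
      (by rw [he]; ring) hBp
    have h6 : 3 * (T - e - 1) + 1 = 1 ∨ 3 * (T - e - 1) + 1 = -1 := by omega
    have h7 : e = T - 1 := by omega
    have h8' : (q : ℤ) = (2 * T + 1) * (6 * T - 1) := by rw [he, h7]; ring
    have h9 : (2 * T + 1).natAbs ∣ q := by
      have : (2 * T + 1) ∣ (q : ℤ) := ⟨_, h8'⟩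
      exact Int.natAbs_dvd_natAbs.mpr this
    rcases (Nat.dvd_prime hq).mp h9 with h | h
    · omega
    · have : (q : ℤ) = 2 * T + 1 := by omega
      nlinarith
  rw [he] at hA hB
  have bd := bounds_e hT3 hA0 hB0 hA hB
  obtain ⟨hlo, hhi, hlo1⟩ := bd
  clear hA hB gen hr0 hr1
  -- the prime `r`
  have hne : (4 * e + 3).natAbs ≠ 1 := by omega
  have hrp := Nat.minFac_prime hne
  obtain ⟨r, hr⟩ : ∃ r, r = (4 * e + 3).natAbs.minFac := ⟨_, rfl⟩
  rw [← hr] at hrp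
  have hrd : (r : ℤ) ∣ 4 * e + 3 := by
    rw [hr]; exact Int.natCast_dvd.mpr (Nat.minFac_dvd _)
  have hrle : (r : ℤ) < 2 * T := by
    have : r ≤ (4 * e + 3).natAbs := by rw [hr]; exact Nat.minFac_le (by omega)
    omega
  have hro : (r : ℤ) % 2 = 1 := by
    rcases hrp.eq_two_or_odd with h | h
    · exfalso
      rw [h] at hrd
      have : (4 * e + 3) % 2 = 0 := Int.emod_eq_zero_of_dvd (by exact_mod_cast hrd)
      omega
    · omega
  obtain ⟨s, hs1, hs2, hso, hsd⟩ := exists_s (T := T) (r := (r : ℤ)) (by exact_mod_cast hrp.pos) hro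
  have hslt : s ≤ 2 * T - 1 := by omega
  obtain ⟨n, hn⟩ : ∃ n : ℕ, 2 * (n : ℤ) + 1 = s := ⟨((s - 1) / 2).toNat, by omega⟩
  have hs2' : s ^ 2 ≤ (2 * T - 1) ^ 2 := pow_le_pow_left₀ (by linarith) hslt 2
  have hrange : 4 * (2 * (n : ℤ) + 1) ^ 2 < 3 * q := by
    rw [hn]; nlinarith [sq_nonneg (2 * T - 1)]
  have hF4 := h4 n
  rw [hn] at hF4
  have hrF : (r : ℤ) ∣ F 3 q n := by
    have h5 : (r : ℤ) ∣ 4 * F 3 q n := by
      rw [hF4, he]
      have : 3 * s ^ 2 - (12 * T ^ 2 + 4 * e + 3) = 3 * (s ^ 2 - (2 * T) ^ 2) - (4 * e + 3) := by ring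
      rw [this]
      exact dvd_sub (hsd.mul_left _) hrd
    have hcop : IsCoprime (r : ℤ) 4 := cop4 hro
    exact hcop.dvd_of_dvd_mul_left h5
  have hfin := prime_of_dvd hrp hrF (H n hrange)
  have hFle : F 3 q n ≤ -(3 * T + e) := by nlinarith
  have : (r : ℤ) = -(F 3 q n) := by omega
  omega

end

end Pool.Agent.N156.PQ
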