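import Pool.Agent.N156.PQ.G

namespace Pool.Agent.N156.PQ

theorem exists_s' {r c : ℤ} (hrpos : 0 < r) (hro : r % 2 = 1) :
    ∃ s : ℤ, 1 ≤ s ∧ s ≤ r ∧ s % 2 = 1 ∧ r ∣ s ^ 2 - c ^ 2 := by
  obtain ⟨ρ, k, h0, h1, hk⟩ : ∃ ρ k : ℤ, 0 ≤ ρ ∧ ρ < r ∧ c - ρ = r * k :=
    ⟨c % r, c / r, Int.emod_nonneg _ hrpos.ne', Int.emod_lt_of_pos _ hrpos, by
      have := Int.emod_add_mul_ediv c r
      linarith⟩
  rcases Int.emod_two_eq_zero_or_one ρ with h | h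
  · refine ⟨r - ρ, by omega, by omega, by omega, ?_⟩
    exact ⟨(1 + k) * (r - ρ - c), by linear_combination (r - ρ - c) * hk⟩
  · refine ⟨ρ, by omega, by omega, h, ?_⟩
    exact ⟨-k * (ρ + c), by linear_combination -(ρ + c) * hk⟩

/-- an element of norm `± q₁` -/
theorem form_gh {q1 q2 : ℤ} (hq10 : q1 ≠ 0) (h1o : q1 % 2 = 1) (h2o : q2 % 2 = 1) (hF : Forms q1 q2) :
    ∃ g h η : ℤ, (η = 1 ∨ η = -1) ∧ q1 * g ^ 2 - q2 * h ^ 2 = 4 * η ∧ g % 2 = h % 2 := by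
  obtain ⟨s, hf | hf | hf⟩ := hF
  · have hq2 : q2 = q1 * s ^ 2 + 4 := by apply mul_left_cancel₀ hq10; rw [hf]; ring
    refine ⟨s, 1, -1, Or.inr rfl, by rw [hq2]; ring, ?_⟩
    rcases Int.emod_two_eq_zero_or_one s with h | h
    · exfalso
      have : q2 % 2 = 0 := by rw [hq2]; simp [Int.add_emod, Int.mul_emod, pow_two, h]
      omega
    · rw [h]; rfl
  · have hq2 : q2 = q1 * s ^ 2 - 4 := by apply mul_left_cancel₀ hq10; rw [hf]; ring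
    refine ⟨s, 1, 1, Or.inl rfl, by rw [hq2]; ring, ?_⟩
    rcases Int.emod_two_eq_zero_or_one s with h | h
    · exfalso
      have : q2 % 2 = 0 := by rw [hq2]; simp [Int.sub_emod, Int.mul_emod, pow_two, h]
      omega
    · rw [h]; rfl
  · have hq2 : q2 = 4 * q1 * s ^ 2 - 1 := by apply mul_left_cancel₀ hq10; rw [hf]; ring
    refine ⟨4 * s, 2, 1, Or.inl rfl, by rw [hq2]; ring, ?_⟩
    omega

/-- Under (1) and one of the forms each non-inert prime below `√D / 2` is the norm of an integer. -/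
theorem exists_rep {q₁ q₂ : ℕ} (h1 : q₁.Prime) (h2 : q₂.Prime) (hlt : q₁ < q₂)
    (h14 : q₁ % 4 = 3) (h24 : q₂ % 4 = 3) (h8 : (q₁ * q₂) % 8 = 5) (hF : Forms q₁ q₂)
    (H : ∀ n : ℕ, 4 * (2 * (n : ℤ) + 1) ^ 2 < (q₁ : ℤ) * q₂ → (F q₁ q₂ n).natAbs = 1 ∨ (F q₁ q₂ n).natAbs.Prime)
    {p : ℕ} (hp : p.Prime) (hpD : 4 * (p : ℤ) ^ 2 < (q₁ : ℤ) * q₂) {w R : ℤ}
    (hR : (q₁ : ℤ) * q₂ = 1 + 4 * R) (hw : (p : ℤ) ∣ w ^ 2 + w - R) :
    ∃ a b : ℤ, |a ^ 2 - (q₁ : ℤ) * q₂ * b ^ 2| = 4 * (p : ℤ) := by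
  have h1o : (q₁ : ℤ) % 2 = 1 := by omega
  have h2o : (q₂ : ℤ) % 2 = 1 := by omega
  obtain ⟨g, h, η, hη, hgh, hpar⟩ := form_gh (by exact_mod_cast h1.ne_zero) h1o h2o hF
  by_cases hpq : p = q₁
  · refine ⟨q₁ * g, h, ?_⟩
    have : ((q₁ : ℤ) * g) ^ 2 - (q₁ : ℤ) * q₂ * h ^ 2 = 4 * q₁ * η := by linear_combination (q₁ : ℤ) * hgh
    rw [this, hpq, abs_mul]
    rcases hη with e | e <;> rw [e] <;> simp
  have hRo : R % 2 = 1 := by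
    have : ((q₁ * q₂ : ℕ) : ℤ) % 8 = 5 := by omega
    push_cast at this
    omega
  have hpo : (p : ℤ) % 2 = 1 := by
    rcases hp.eq_two_or_odd with e | e
    · exfalso
      rw [e] at hw
      obtain ⟨k, hk⟩ := Int.even_mul_succ_self w
      have : (w ^ 2 + w - R) % 2 = 0 := Int.emod_eq_zero_of_dvd (by exact_mod_cast hw)
      have e2 : w ^ 2 + w = k + k := by rw [← hk]; ring
      omega
    · omega
  have hpq2 : p ≠ q₂ := by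
    rintro rfl
    have : (q₁ : ℤ) < p := by exact_mod_cast hlt
    have : (0 : ℤ) < q₁ := by exact_mod_cast h1.pos
    nlinarith
  -- inverse of `q₁`
  have hcop : IsCoprime (q₁ : ℤ) (p : ℤ) := by
    rw [Nat.isCoprime_iff_coprime]
    exact (Nat.coprime_primes h1 hp).mpr (fun e => hpq e.symm)
  obtain ⟨u, v, huv⟩ := hcop
  obtain ⟨s, hs1, hs2, hso, hsd⟩ := exists_s' (c := (2 * w + 1) * u) (r := (p : ℤ)) (by exact_mod_cast hp.pos) hpo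
  -- `p ∣ q₁ s² - q₂`
  have hd1 : (p : ℤ) ∣ (q₁ : ℤ) * (q₁ * s ^ 2 - q₂) := by
    have e1 : (q₁ : ℤ) * (q₁ * s ^ 2 - q₂) = q₁ ^ 2 * (s ^ 2 - ((2 * w + 1) * u) ^ 2) +
        ((2 * w + 1) ^ 2 * (u * q₁ - 1) * (u * q₁ + 1)) + 4 * (w ^ 2 + w - R) := by
      linear_combination -hR
    have e2 : u * q₁ - 1 = (p : ℤ) * (-v) := by linear_combination huv
    rw [e1, e2]
    refine dvd_add (dvd_add (hsd.mul_left _) ?_) (hw.mul_left _)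
    exact ⟨(2 * w + 1) ^ 2 * (-v) * (u * q₁ + 1), by ring⟩
  have hpz : Prime (p : ℤ) := Nat.prime_iff_prime_int.mp hp
  have hnq1 : ¬ (p : ℤ) ∣ (q₁ : ℤ) := by
    intro hh
    exact hpq ((Nat.prime_dvd_prime_iff_eq hp h1).mp (by exact_mod_cast hh))
  have hd2 : (p : ℤ) ∣ (q₁ : ℤ) * s ^ 2 - q₂ := (hpz.dvd_or_dvd hd1).resolve_left hnq1
  obtain ⟨n, hn⟩ : ∃ n : ℕ, 2 * (n : ℤ) + 1 = s := ⟨((s - 1) / 2).toNat, by omega⟩
  have hs2' : s ^ 2 ≤ (p : ℤ) ^ 2 := pow_le_pow_left₀ (by linarith) hs2 2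
  have hFn := four_F h14 h24 n
  rw [hn] at hFn
  have hpF : (p : ℤ) ∣ F q₁ q₂ n := by
    have h5 : (p : ℤ) ∣ 4 * F q₁ q₂ n := by rw [hFn]; exact hd2
    exact (cop4 hpo).dvd_of_dvd_mul_left h5
  have hfin := prime_of_dvd hp hpF (H n (by rw [hn]; linarith))
  have habs : |(q₁ : ℤ) * s ^ 2 - q₂| = 4 * (p : ℤ) := by
    rw [← hFn, abs_mul, ← hfin, Int.natCast_natAbs]; norm_num
  -- type II to type I
  obtain ⟨a, ha⟩ : ∃ a : ℤ, q₁ * s * g - h * q₂ = 2 * a := by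
    have : ((q₁ : ℤ) * s * g - h * q₂) % 2 = 0 := by
      rcases Int.emod_two_eq_zero_or_one g with e | e <;> rw [e] at hpar <;>
        simp [Int.sub_emod, Int.mul_emod, h1o, h2o, hso, e, ← hpar]
    exact ⟨(q₁ * s * g - h * q₂) / 2, by omega⟩
  obtain ⟨b, hb⟩ : ∃ b : ℤ, g - h * s = 2 * b := by
    have : (g - h * s) % 2 = 0 := by
      rcases Int.emod_two_eq_zero_or_one g with e | e <;> rw [e] at hpar <;>
        simp [Int.sub_emod, Int.mul_emod, hso, e, ← hpar]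
    exact ⟨(g - h * s) / 2, by omega⟩
  refine ⟨a, b, ?_⟩
  have hnorm : a ^ 2 - (q₁ : ℤ) * q₂ * b ^ 2 = (q₁ * s ^ 2 - q₂) * η := by
    have h4 : 4 * (a ^ 2 - (q₁ : ℤ) * q₂ * b ^ 2) = (q₁ * s ^ 2 - q₂) * (4 * η) := by
      have : 4 * (a ^ 2 - (q₁ : ℤ) * q₂ * b ^ 2) = (2 * a) ^ 2 - q₁ * q₂ * (2 * b) ^ 2 := by ring
      rw [this, ← ha, ← hb, ← hgh]; ring
    linarith
  rw [hnorm, abs_mul, habs]
  rcases hη with e | e <;> rw [e] <;> simp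

end Pool.Agent.N156.PQ
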