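import Pool.Agent.H419R2.A2

namespace Pool.Agent.N156.PQ

open H419R2 NumberField

section
variable {K : Type*} [Field K] [NumberField K] {R m : ℤ}

theorem one_mem_of_int {P : Ideal (𝓞 K)} {p : ℕ} (hp : p.Prime) (hpP : ((p : ℕ) : 𝓞 K) ∈ P) {N : ℤ}
    (hN : (N : 𝓞 K) ∈ P) (h : ¬ (p : ℤ) ∣ N) : (1 : 𝓞 K) ∈ P := by
  have hpz : Prime (p : ℤ) := Nat.prime_iff_prime_int.mp hp
  have hcop : IsCoprime (p : ℤ) N := (hpz.irreducible.coprime_iff_not_dvd).mpr h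
  obtain ⟨a, b, hab⟩ := hcop
  have : (1 : 𝓞 K) = (a : 𝓞 K) * ((p : ℕ) : 𝓞 K) + (b : 𝓞 K) * (N : 𝓞 K) := by
    have h2 : ((a * (p : ℤ) + b * N : ℤ) : 𝓞 K) = ((1 : ℤ) : 𝓞 K) := by rw [hab]
    push_cast at h2
    rw [h2]
  rw [this]
  exact P.add_mem (P.mul_mem_left _ hpP) (P.mul_mem_left _ hN)

theorem principal_of_prime (e : 𝓞 K ≃ₐ[ℤ] QA R m) (P : Ideal (𝓞 K)) (hP : P.IsPrime) {p : ℕ}
    (hp : p.Prime) (hpP : ((p : ℕ) : 𝓞 K) ∈ P)
    (hrep : ∀ w : ℤ, (p : ℤ) ∣ w ^ 2 + m * w - R → ∃ z : QA R m, (QuadraticAlgebra.norm z).natAbs = p) :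
    Submodule.IsPrincipal P := by
  by_cases hall : ∀ z ∈ P, ((p : ℕ) : 𝓞 K) ∣ z
  · exact ⟨⟨((p : ℕ) : 𝓞 K), le_antisymm (fun z hz => Ideal.mem_span_singleton.mpr (hall z hz))
      ((Ideal.span_singleton_le_iff_mem _).mpr hpP)⟩⟩
  push Not at hall
  obtain ⟨z, hz, hnd⟩ := hall
  have h1 : (1 : 𝓞 K) ∉ P := fun h => hP.ne_top ((Ideal.eq_top_iff_one _).mpr h)
  obtain ⟨u, v, huv⟩ : ∃ u v : ℤ, e z = (⟨u, v⟩ : QA R m) := ⟨(e z).re, (e z).im, rfl⟩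
  set Ω : 𝓞 K := e.symm (⟨0, 1⟩ : QA R m) with hΩ
  have hΩ2 : Ω * Ω = (R : 𝓞 K) + (m : 𝓞 K) * Ω := by
    apply e.injective
    rw [map_mul, map_add, map_mul, hΩ, AlgEquiv.apply_symm_apply, map_intCast, map_intCast]
    ext <;> simp
  have hzu : z = (u : 𝓞 K) + (v : 𝓞 K) * Ω := by
    apply e.injective
    rw [huv, map_add, map_mul, hΩ, AlgEquiv.apply_symm_apply, map_intCast, map_intCast]
    ext <;> simp
  have hpv : ¬ (p : ℤ) ∣ v := by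
    rintro ⟨v', rfl⟩
    have hu : (u : 𝓞 K) ∈ P := by
      have : (u : 𝓞 K) = z - ((v' : 𝓞 K) * Ω) * ((p : ℕ) : 𝓞 K) := by rw [hzu]; push_cast; ring
      rw [this]; exact P.sub_mem hz (P.mul_mem_left _ hpP)
    by_cases hpu : (p : ℤ) ∣ u
    · obtain ⟨u', rfl⟩ := hpu
      exact hnd ⟨(u' : 𝓞 K) + (v' : 𝓞 K) * Ω, by rw [hzu]; push_cast; ring⟩
    · exact h1 (one_mem_of_int hp hpP hu hpu)
  have hpz : Prime (p : ℤ) := Nat.prime_iff_prime_int.mp hp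
  obtain ⟨a, b, hab⟩ := (hpz.irreducible.coprime_iff_not_dvd).mpr hpv
  have hab' : (a : 𝓞 K) * ((p : ℕ) : 𝓞 K) + (b : 𝓞 K) * (v : 𝓞 K) = 1 := by
    have h2 : ((a * (p : ℤ) + b * v : ℤ) : 𝓞 K) = ((1 : ℤ) : 𝓞 K) := by rw [hab]
    push_cast at h2
    rw [h2]
  have hw : ((b * u : ℤ) : 𝓞 K) + Ω ∈ P := by
    have : ((b * u : ℤ) : 𝓞 K) + Ω = (b : 𝓞 K) * z + ((a : 𝓞 K) * Ω) * ((p : ℕ) : 𝓞 K) := by
      rw [hzu]; push_cast
      linear_combination (-Ω) * hab'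
    rw [this]; exact P.add_mem (P.mul_mem_left _ hz) (P.mul_mem_left _ hpP)
  have hN : (((b * u) ^ 2 + m * (b * u) - R : ℤ) : 𝓞 K) ∈ P := by
    have : (((b * u) ^ 2 + m * (b * u) - R : ℤ) : 𝓞 K) =
        (((b * u : ℤ) : 𝓞 K) + (m : 𝓞 K) - Ω) * (((b * u : ℤ) : 𝓞 K) + Ω) := by
      push_cast
      linear_combination hΩ2
    rw [this]; exact P.mul_mem_left _ hw
  have hdvd : (p : ℤ) ∣ (b * u) ^ 2 + m * (b * u) - R := by
    by_contra hc
    exact h1 (one_mem_of_int hp hpP hN hc)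
  obtain ⟨β, hβ⟩ := hrep _ hdvd
  have key : ∀ γ : QA R m, (QuadraticAlgebra.norm γ).natAbs = p → e.symm γ ∈ P → Submodule.IsPrincipal P := by
    intro γ hγ hmem
    have hnorm : Ideal.absNorm (Ideal.span {e.symm γ}) = p := by
      rw [Ideal.absNorm_span_singleton, Algebra.norm_eq_of_algEquiv e.symm, algebra_norm_eq, hγ]
    have hpr : (Ideal.span {e.symm γ}).IsPrime :=
      Ideal.isPrime_of_irreducible_absNorm (by rw [hnorm]; exact hp)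
    have hne : Ideal.span {e.symm γ} ≠ ⊥ := by
      intro h
      rw [h, Ideal.absNorm_bot] at hnorm
      exact hp.ne_zero hnorm.symm
    have hmax := hpr.isMaximal hne
    have heq := hmax.eq_of_le hP.ne_top ((Ideal.span_singleton_le_iff_mem _).mpr hmem)
    exact ⟨⟨e.symm γ, heq.symm⟩⟩
  have hprod : e.symm β * e.symm (star β) ∈ P := by
    rw [← map_mul, ← QuadraticAlgebra.algebraMap_norm_eq_mul_star]
    have h5 : e.symm (algebraMap ℤ (QA R m) (QuadraticAlgebra.norm β)) = ((QuadraticAlgebra.norm β : ℤ) : 𝓞 K) := by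
      rw [eq_intCast, map_intCast]
    rw [h5]
    rcases Int.natAbs_eq (QuadraticAlgebra.norm β) with h6 | h6
    · rw [h6, hβ]; exact_mod_cast hpP
    · rw [h6, hβ]; push_cast; exact P.neg_mem hpP
  rcases hP.mem_or_mem hprod with h | h
  · exact key β hβ h
  · refine key (star β) ?_ h
    rw [QuadraticAlgebra.norm_star, hβ]

/-- a rational prime in a prime ideal -/
theorem exists_prime_mem {P : Ideal (𝓞 K)} (hP : P.IsPrime) :
    ∀ n : ℕ, 0 < n → ((n : ℕ) : 𝓞 K) ∈ P → ∃ p : ℕ, p.Prime ∧ p ≤ n ∧ ((p : ℕ) : 𝓞 K) ∈ P := by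
  intro n
  induction n using Nat.strong_induction_on with
  | _ n ih =>
  intro hn hmem
  have hn1 : n ≠ 1 := by
    rintro rfl
    exact hP.ne_top ((Ideal.eq_top_iff_one _).mpr (by simpa using hmem))
  obtain ⟨k, hk⟩ := Nat.minFac_dvd n
  have hmp := Nat.minFac_prime hn1
  have hk0 : 0 < k := by
    rcases Nat.eq_zero_or_pos k with h | h
    · rw [h] at hk; omega
    · exact h
  have hmem2 : ((n.minFac : ℕ) : 𝓞 K) * ((k : ℕ) : 𝓞 K) ∈ P := by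
    rw [← Nat.cast_mul, ← hk]; exact hmem
  rcases hP.mem_or_mem hmem2 with h | h
  · exact ⟨n.minFac, hmp, Nat.minFac_le hn, h⟩
  · have hlt : k < n := by
      have := hmp.two_le
      calc k < n.minFac * k := by nlinarith
        _ = n := hk.symm
    obtain ⟨p, hp1, hp2, hp3⟩ := ih k hlt hk0 h
    exact ⟨p, hp1, by omega, hp3⟩

end

end Pool.Agent.N156.PQ
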