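import Pool.Agent.N156.PQ.I

namespace Pool.Agent.N156.PQ

open H419R2 NumberField Module

section
variable {K : Type*} [Field K] [NumberField K]

theorem exists_equiv {m R : ℤ} (hm : m % 2 = 1) {D : ℤ} (hDm : D = m ^ 2 + 4 * R)
    (hsf : Squarefree D) (hD1 : 1 < D) (hK : finrank ℚ K = 2) {x : K}
    (hx : x ^ 2 = (D : K)) : Nonempty (𝓞 K ≃ₐ[ℤ] QA R m) := by
  have hns := not_sq_of_squarefree hsf hD1
  have hxr : ∀ p q : ℤ, (p : K) + (q : K) * (((m : K) + x) / 2) = 0 → p = 0 ∧ q = 0 := by
    intro p q h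
    have h2 : (2 : K) ≠ 0 := by norm_num
    by_cases hq : q = 0
    · subst hq
      simp at h
      exact ⟨h, rfl⟩
    · exfalso
      apply hns
      refine ⟨-(2 * p + q * m) / q, ?_⟩
      have hq' : (q : K) ≠ 0 := by exact_mod_cast hq
      have hxe : x = ((-(2 * p + q * m) / q : ℚ) : K) := by
        push_cast
        rw [eq_div_iff hq']
        field_simp at h
        linear_combination h
      have h3 : (((-(2 * p + q * m) / q) ^ 2 : ℚ) : K) = ((D : ℚ) : K) := by
        push_cast
        rw [hxe] at hx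
        push_cast at hx
        exact hx
      exact_mod_cast h3
  letI : Algebra (QA R m) K := (emb hDm hx).toRingHom.toAlgebra
  have hmap : ∀ z : QA R m, algebraMap (QA R m) K z =
      (z.re : K) + (z.im : K) * (((m : K) + x) / 2) := fun z => emb_apply hDm hx z
  haveI : IsIntegralClosure (QA R m) ℤ K := by
    refine ⟨?_, ?_⟩
    · intro z w hzw
      rw [hmap, hmap] at hzw
      have := hxr (z.re - w.re) (z.im - w.im) (by push_cast; linear_combination hzw)
      ext
      · linarith [this.1]
      · linarith [this.2]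
    · intro y
      constructor
      · intro hy
        obtain ⟨u, w, h⟩ := integral_coords hm hDm hsf hD1 hK hx hy
        exact ⟨⟨u, w⟩, by rw [hmap, h]⟩
      · rintro ⟨z, rfl⟩
        have : IsIntegral ℤ z := by
          refine ⟨Polynomial.X ^ 2 - Polynomial.C (QuadraticAlgebra.trace z) * Polynomial.X
            + Polynomial.C (QuadraticAlgebra.norm z), ?_, ?_⟩
          · monicity!
          · rw [← Polynomial.aeval_def]
            simp only [map_add, map_sub, map_pow, map_mul, Polynomial.aeval_X, Polynomial.aeval_C]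
            have := QuadraticAlgebra.sq_sub_trace_smul_add_norm_eq_zero z
            simpa [Algebra.smul_def] using this
        exact this.map (emb hDm hx)
  haveI : IsScalarTower ℤ (QA R m) K := IsScalarTower.of_algebraMap_eq (fun n => by simp)
  exact ⟨IsIntegralClosure.equiv ℤ (NumberField.RingOfIntegers K) K (QA R m)⟩

theorem basis0 (R m : ℤ) : (QuadraticAlgebra.basis R m) 0 = (⟨1, 0⟩ : QA R m) := by
  apply (QuadraticAlgebra.basis R m).repr.injective
  rw [Basis.repr_self]
  ext i
  fin_cases i <;> simp [QuadraticAlgebra.basis_repr_apply]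

theorem basis1 (R m : ℤ) : (QuadraticAlgebra.basis R m) 1 = (⟨0, 1⟩ : QA R m) := by
  apply (QuadraticAlgebra.basis R m).repr.injective
  rw [Basis.repr_self]
  ext i
  fin_cases i <;> simp [QuadraticAlgebra.basis_repr_apply]

theorem trace_eq {R m : ℤ} (z : QA R m) : Algebra.trace ℤ (QA R m) z = 2 * z.re + m * z.im := by
  rw [Algebra.trace_eq_matrix_trace (QuadraticAlgebra.basis R m), Matrix.trace_fin_two]
  rw [Algebra.leftMulMatrix_eq_repr_mul, Algebra.leftMulMatrix_eq_repr_mul, basis0, basis1]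
  simp
  ring

theorem discr_eq {R m D : ℤ} (hDm : D = m ^ 2 + 4 * R) (e : 𝓞 K ≃ₐ[ℤ] QA R m) : discr K = D := by
  have h1 := NumberField.discr_eq_discr K ((QuadraticAlgebra.basis R m).map e.symm.toLinearEquiv)
  rw [← h1]
  have h2 : (⇑((QuadraticAlgebra.basis R m).map e.symm.toLinearEquiv) : Fin 2 → 𝓞 K) =
      e.symm ∘ (QuadraticAlgebra.basis R m) := by
    ext i; simp
  rw [h2, ← Algebra.discr_eq_discr_of_algEquiv, Algebra.discr_def, Matrix.det_fin_two]
  simp only [Algebra.traceMatrix_apply, Algebra.traceForm_apply, trace_eq, basis0, basis1]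
  simp
  rw [hDm]
  ring

theorem totReal {D : ℤ} (hD : ¬ ∃ q : ℚ, q ^ 2 = D) (hD0 : 0 < D) (hK : finrank ℚ K = 2) {x : K}
    (hx : x ^ 2 = (D : K)) : IsTotallyReal K := by
  refine ⟨fun v => ?_⟩
  rw [InfinitePlace.isReal_iff, ComplexEmbedding.isReal_iff]
  set φ := v.embedding
  have hφ : (φ x) ^ 2 = ((√(D : ℝ) : ℝ) : ℂ) ^ 2 := by
    rw [← map_pow, hx, map_intCast]
    have : (√(D : ℝ)) ^ 2 = (D : ℝ) := Real.sq_sqrt (by exact_mod_cast hD0.le)
    rw [← Complex.ofReal_pow, this]
    simp
  have hreal : (starRingEnd ℂ) (φ x) = φ x := by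
    rcases sq_eq_sq_iff_eq_or_eq_neg.mp hφ with h | h
    · rw [h, Complex.conj_ofReal]
    · rw [h, map_neg, Complex.conj_ofReal]
  ext y
  obtain ⟨p, q, rfl⟩ := exists_coords hD hK hx y
  rw [ComplexEmbedding.conjugate_coe_eq, map_add, map_mul, map_ratCast, map_ratCast, map_add, map_mul,
    map_ratCast, map_ratCast, hreal]

end

end Pool.Agent.N156.PQ
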