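import Pool.Agent.N156.PQ.H
import Pool.Agent.N156.PQ.J

namespace Pool.Agent.N156.PQ

open H419R2 NumberField Module

theorem class_one {q₁ q₂ : ℕ} (h1 : q₁.Prime) (h2 : q₂.Prime) (hlt : q₁ < q₂)
    (h14 : q₁ % 4 = 3) (h24 : q₂ % 4 = 3) (h8 : (q₁ * q₂) % 8 = 5)
    {K : Type*} [Field K] [NumberField K] (hK : finrank ℚ K = 2) {x : K}
    (hx : x ^ 2 = ((q₁ * q₂ : ℕ) : K)) (hF : Forms q₁ q₂)
    (H : ∀ n : ℕ, 4 * (2 * (n : ℤ) + 1) ^ 2 < (q₁ : ℤ) * q₂ → (F q₁ q₂ n).natAbs = 1 ∨ (F q₁ q₂ n).natAbs.Prime) :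
    NumberField.classNumber K = 1 := by
  have hDz : ((q₁ * q₂ : ℕ) : ℤ) = 1 ^ 2 + 4 * ((((q₁ * q₂ : ℕ) : ℤ) - 1) / 4) := by omega
  have hsf : Squarefree ((q₁ * q₂ : ℕ) : ℤ) := by
    rw [Int.squarefree_natCast]
    exact (Nat.squarefree_mul ((Nat.coprime_primes h1 h2).mpr (by omega))).mpr ⟨h1.squarefree, h2.squarefree⟩
  have hD1 : (1 : ℤ) < ((q₁ * q₂ : ℕ) : ℤ) := by
    have : 1 * 1 < q₁ * q₂ := Nat.mul_lt_mul'' h1.one_lt h2.one_lt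
    exact_mod_cast this
  have hxz : x ^ 2 = ((((q₁ * q₂ : ℕ) : ℤ)) : K) := by rw [hx]; simp
  obtain ⟨e⟩ := exists_equiv (m := 1) (by norm_num) hDz hsf hD1 hK hxz
  have hdisc := discr_eq hDz e
  have htr := totReal (not_sq_of_squarefree hsf hD1) (by linarith) hK hxz
  have hr2 : InfinitePlace.nrComplexPlaces K = 0 := IsTotallyReal.nrComplexPlaces_eq_zero K
  rw [NumberField.classNumber_eq_one_iff]
  apply RingOfIntegers.isPrincipalIdealRing_of_isPrincipal_of_norm_le_of_isPrime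
  intro I hI hnorm
  rw [hr2, hK, hdisc] at hnorm
  have hN0 : 0 < Ideal.absNorm (I : Ideal (𝓞 K)) := Ideal.absNorm_pos_of_nonZeroDivisors I
  obtain ⟨p, hp, hple, hpP⟩ := exists_prime_mem hI _ hN0 (Ideal.absNorm_mem _)
  have hb : 2 * (p : ℝ) ≤ √((q₁ * q₂ : ℕ) : ℝ) := by
    have h5 : (p : ℝ) ≤ (Ideal.absNorm (I : Ideal (𝓞 K)) : ℝ) := by exact_mod_cast hple
    have h6 : |((((q₁ * q₂ : ℕ) : ℤ)) : ℝ)| = ((q₁ * q₂ : ℕ) : ℝ) := by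
      rw [Int.cast_natCast, abs_of_nonneg (by positivity)]
    rw [h6] at hnorm
    generalize √((q₁ * q₂ : ℕ) : ℝ) = S at hnorm ⊢
    norm_num [Nat.factorial] at hnorm
    linarith
  have hpD : 4 * (p : ℤ) ^ 2 < (q₁ : ℤ) * q₂ := by
    have h5 : (2 * (p : ℝ)) ^ 2 ≤ ((q₁ * q₂ : ℕ) : ℝ) := by
      have := pow_le_pow_left₀ (by positivity) hb 2
      rwa [Real.sq_sqrt (by positivity)] at this
    have h6 : 4 * p ^ 2 ≤ q₁ * q₂ := by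
      have : ((4 * p ^ 2 : ℕ) : ℝ) ≤ ((q₁ * q₂ : ℕ) : ℝ) := by push_cast at h5 ⊢; linarith
      exact_mod_cast this
    have h7 : 4 * p ^ 2 ≠ q₁ * q₂ := by omega
    have h8' : 4 * p ^ 2 < q₁ * q₂ := lt_of_le_of_ne h6 h7
    exact_mod_cast h8'
  apply principal_of_prime e _ hI hp hpP
  intro w hw
  obtain ⟨a, b, hab⟩ := exists_rep h1 h2 hlt h14 h24 h8 hF H hp hpD (R := (((q₁ * q₂ : ℕ) : ℤ) - 1) / 4) (w := w)
    (by rw [← Nat.cast_mul]; linarith) (by simpa using hw)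
  have hDo : ((q₁ : ℤ) * q₂) % 2 = 1 := by
    have : ((q₁ * q₂ : ℕ) : ℤ) % 2 = 1 := by omega
    rwa [Nat.cast_mul] at this
  have hpar := odd_par hDo hab
  obtain ⟨c, hc⟩ : ∃ c : ℤ, a - b = 2 * c := ⟨(a - b) / 2, by omega⟩
  refine ⟨⟨c, b⟩, ?_⟩
  have h9 : 4 * QuadraticAlgebra.norm (⟨c, b⟩ : QA ((((q₁ * q₂ : ℕ) : ℤ) - 1) / 4) 1) =
      a ^ 2 - (q₁ : ℤ) * q₂ * b ^ 2 := by
    rw [QuadraticAlgebra.norm_def]
    have ha : a = 2 * c + b := by linarith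
    rw [ha, ← Nat.cast_mul]
    simp only
    linear_combination b ^ 2 * hDz
  have h10 : |QuadraticAlgebra.norm (⟨c, b⟩ : QA ((((q₁ * q₂ : ℕ) : ℤ) - 1) / 4) 1)| = (p : ℤ) := by
    rw [← h9, abs_mul] at hab
    norm_num at hab
    exact hab
  have h11 := Int.natCast_natAbs (QuadraticAlgebra.norm (⟨c, b⟩ : QA ((((q₁ * q₂ : ℕ) : ℤ) - 1) / 4) 1))
  rw [h10] at h11
  exact_mod_cast h11

end Pool.Agent.N156.PQ
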