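import Pool.Agent.N156.PQ.M

namespace Pool.Agent.N156.PQ

theorem cond_int {q₁ q₂ : ℕ}
    (hc : ∀ n : ℕ, (n : ℝ) < (√((q₁ * q₂ : ℕ) : ℝ) - 2) / 4 → (F q₁ q₂ n).natAbs = 1 ∨ (F q₁ q₂ n).natAbs.Prime) :
    ∀ n : ℕ, 4 * (2 * (n : ℤ) + 1) ^ 2 < (q₁ : ℤ) * q₂ → (F q₁ q₂ n).natAbs = 1 ∨ (F q₁ q₂ n).natAbs.Prime := by
  intro n hn
  apply hc n
  have h5 : (4 * (2 * (n : ℝ) + 1) ^ 2) < (q₁ : ℝ) * (q₂ : ℝ) := by exact_mod_cast hn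
  have h6 : (2 * (2 * (n : ℝ) + 1)) < √((q₁ * q₂ : ℕ) : ℝ) := by
    apply Real.lt_sqrt_of_sq_lt
    push_cast
    nlinarith
  linarith

end Pool.Agent.N156.PQ
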