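import Mathlib

namespace Pool.Agent.N156.PQ

theorem pos_of_mul_pos' {a b : ℤ} (h : 0 < a * b) (ha : 0 < a) : 0 < b := by
  by_contra hc
  push Not at hc
  nlinarith

theorem sq_parts {u v z : ℤ} (hu : 0 < u) (hv : 0 < v) (hc : IsCoprime u v) (h : u * v = z ^ 2) :
    ∃ a b : ℤ, u = a ^ 2 ∧ v = b ^ 2 := by
  obtain ⟨a, ha | ha⟩ := Int.sq_of_isCoprime hc h
  · obtain ⟨b, hb | hb⟩ := Int.sq_of_isCoprime hc.symm (by rw [mul_comm]; exact h)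
    · exact ⟨a, b, ha, hb⟩
    · exfalso; nlinarith [sq_nonneg b]
  · exfalso; nlinarith [sq_nonneg a]

/-- for two primes `3 mod 4` with product `5 mod 8` the form `q₁ g² - q₂ h²` represents `1` or `-1` -/
theorem rep_unit {q₁ q₂ : ℕ} (h1 : q₁.Prime) (h2 : q₂.Prime) (hne : q₁ ≠ q₂)
    (h14 : q₁ % 4 = 3) (h8 : (q₁ * q₂) % 8 = 5) :
    ∃ g h : ℤ, (q₁ : ℤ) * g ^ 2 - q₂ * h ^ 2 = 1 ∨ (q₁ : ℤ) * g ^ 2 - q₂ * h ^ 2 = -1 := by
  classical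
  have hDns : ¬ IsSquare (((q₁ : ℤ) * q₂)) := by
    rintro ⟨r, hr⟩
    have hp1 : Prime (q₁ : ℤ) := Nat.prime_iff_prime_int.mp h1
    have hd : (q₁ : ℤ) ∣ r * r := ⟨q₂, hr.symm⟩
    have hdr : (q₁ : ℤ) ∣ r := by
      rcases hp1.dvd_or_dvd hd with h | h <;> exact h
    obtain ⟨k, rfl⟩ := hdr
    have h5 : (q₂ : ℤ) = q₁ * (k * k) := by
      have : (q₁ : ℤ) ≠ 0 := by exact_mod_cast h1.ne_zero
      apply mul_left_cancel₀ this
      rw [hr]; ring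
    have h6 : q₁ ∣ q₂ := by
      have : (q₁ : ℤ) ∣ (q₂ : ℤ) := ⟨_, h5⟩
      exact_mod_cast this
    exact hne ((Nat.prime_dvd_prime_iff_eq h1 h2).mp h6)
  have hD0 : 0 < (q₁ : ℤ) * q₂ := by
    have := h1.pos; have := h2.pos; positivity
  have hex : ∃ n : ℕ, 0 < n ∧ ∃ x : ℤ, x ^ 2 - (q₁ : ℤ) * q₂ * (n : ℤ) ^ 2 = 1 := by
    obtain ⟨x, y, hxy, hy⟩ := Pell.exists_of_not_isSquare hD0 hDns
    exact ⟨y.natAbs, Int.natAbs_pos.mpr hy, x, by rw [Int.natCast_natAbs, sq_abs]; exact hxy⟩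
  obtain ⟨n, ⟨hn0, x0, hx0⟩, hmin⟩ : ∃ n : ℕ, (0 < n ∧ ∃ x : ℤ, x ^ 2 - (q₁ : ℤ) * q₂ * (n : ℤ) ^ 2 = 1) ∧
      ∀ m < n, ¬ (0 < m ∧ ∃ x : ℤ, x ^ 2 - (q₁ : ℤ) * q₂ * (m : ℤ) ^ 2 = 1) :=
    ⟨Nat.find hex, Nat.find_spec hex, fun m hm => Nat.find_min hex hm⟩
  obtain ⟨x, hxp, hx⟩ : ∃ x : ℤ, 0 ≤ x ∧ x ^ 2 - (q₁ : ℤ) * q₂ * (n : ℤ) ^ 2 = 1 :=
    ⟨|x0|, abs_nonneg _, by rw [sq_abs]; exact hx0⟩
  have hD8 : ((q₁ : ℤ) * q₂) % 8 = 5 := by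
    have : ((q₁ * q₂ : ℕ) : ℤ) % 8 = 5 := by omega
    rwa [Nat.cast_mul] at this
  -- `n` even
  obtain ⟨D, hDD⟩ : ∃ D : ℤ, D = (q₁ : ℤ) * q₂ := ⟨_, rfl⟩
  rw [← hDD] at hx hD8 hD0
  have hne' : (n : ℤ) % 2 = 0 := by
    rcases Int.emod_two_eq_zero_or_one (n : ℤ) with h | h
    · exact h
    · exfalso
      have h5 : (n : ℤ) ^ 2 % 8 = 1 := by
        obtain ⟨k, hk⟩ : ∃ k : ℤ, (n : ℤ) = 2 * k + 1 := ⟨(n : ℤ) / 2, by omega⟩
        obtain ⟨j, hj⟩ := Int.even_mul_succ_self k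
        have : (n : ℤ) ^ 2 = 8 * j + 1 := by rw [hk]; linear_combination 4 * hj
        omega
      have h6 : (D * (n : ℤ) ^ 2) % 8 = 5 := by rw [Int.mul_emod, hD8, h5]; rfl
      have h7 : x ^ 2 % 8 = 6 := by omega
      have h8 : x % 8 = 0 ∨ x % 8 = 1 ∨ x % 8 = 2 ∨ x % 8 = 3 ∨ x % 8 = 4 ∨ x % 8 = 5 ∨ x % 8 = 6 ∨ x % 8 = 7 := by
        omega
      rcases h8 with h8 | h8 | h8 | h8 | h8 | h8 | h8 | h8 <;> rw [pow_two, Int.mul_emod, h8] at h7 <;>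
        norm_num at h7
  obtain ⟨z, hz⟩ : ∃ z : ℤ, (n : ℤ) = 2 * z := ⟨(n : ℤ) / 2, by omega⟩
  have hz0 : 0 < z := by
    have : (0 : ℤ) < n := by exact_mod_cast hn0
    omega
  have hxo : x % 2 = 1 := by
    rcases Int.emod_two_eq_zero_or_one x with h | h
    · exfalso
      obtain ⟨k, rfl⟩ : ∃ k, x = 2 * k := ⟨x / 2, by omega⟩
      rw [hz] at hx
      have : 4 * (k ^ 2 - D * z ^ 2) = 1 := by linear_combination hx
      omega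
    · exact h
  obtain ⟨u, hu⟩ : ∃ u : ℤ, x = 2 * u + 1 := ⟨x / 2, by omega⟩
  have huz : u * (u + 1) = D * z ^ 2 := by
    rw [hz, hu] at hx
    have : 4 * (u * (u + 1)) = 4 * (D * z ^ 2) := by linear_combination hx
    linarith
  have hu0 : 0 < u := by
    have h5 : 0 < D * z ^ 2 := by positivity
    have h6 : 0 ≤ u := by omega
    rcases h6.lt_or_eq with h | h
    · exact h
    · exfalso; rw [← h] at huz; simp at huz; omega
  have hq1p : Prime (q₁ : ℤ) := Nat.prime_iff_prime_int.mp h1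
  have hq2p : Prime (q₂ : ℤ) := Nat.prime_iff_prime_int.mp h2
  have hq1z : (q₁ : ℤ) ≠ 0 := hq1p.ne_zero
  have hq2z : (q₂ : ℤ) ≠ 0 := hq2p.ne_zero
  have hq1pos : (0 : ℤ) < q₁ := by exact_mod_cast h1.pos
  have hq2pos : (0 : ℤ) < q₂ := by exact_mod_cast h2.pos
  have hcop : IsCoprime (q₁ : ℤ) (q₂ : ℤ) := by
    rw [Nat.isCoprime_iff_coprime]; exact (Nat.coprime_primes h1 h2).mpr hne
  have hd1 : (q₁ : ℤ) ∣ u * (u + 1) := by rw [huz, hDD]; exact ⟨q₂ * z ^ 2, by ring⟩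
  have hd2 : (q₂ : ℤ) ∣ u * (u + 1) := by rw [huz, hDD]; exact ⟨q₁ * z ^ 2, by ring⟩
  rcases hq1p.dvd_or_dvd hd1 with e1 | e1 <;> rcases hq2p.dvd_or_dvd hd2 with e2 | e2
  · -- both divide `u`
    exfalso
    obtain ⟨u', hu'⟩ := hcop.mul_dvd e1 e2
    rw [← hDD] at hu'
    have h5 : u' * (u + 1) = z ^ 2 := by
      apply mul_left_cancel₀ hD0.ne'
      rw [← huz, hu']; ring
    have hu'0 : 0 < u' := by
      rw [hu'] at hu0; exact pos_of_mul_pos' hu0 hD0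
    obtain ⟨a, b, ha, hb⟩ := sq_parts hu'0 (by linarith) ⟨-D, 1, by rw [hu']; ring⟩ h5
    have ha0 : a ≠ 0 := by rintro rfl; rw [ha] at hu'0; norm_num at hu'0
    refine hmin a.natAbs ?_ ⟨Int.natAbs_pos.mpr ha0, b, ?_⟩
    · have h6 : a ^ 2 < (n : ℤ) ^ 2 := by
        rw [← ha, hz]
        have : u' ≤ u' * (u + 1) := by nlinarith
        nlinarith
      have h7 : |a| < |(n : ℤ)| := sq_lt_sq.mp h6
      rw [Nat.abs_cast] at h7
      have h8 : ((a.natAbs : ℕ) : ℤ) < (n : ℤ) := by rw [Int.natCast_natAbs]; exact h7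
      exact_mod_cast h8
    · rw [Int.natCast_natAbs, sq_abs, ← hDD, ← ha, ← hb, hu']; ring
  · -- `q₁ ∣ u`, `q₂ ∣ u + 1`
    obtain ⟨u', hu'⟩ := e1
    obtain ⟨v', hv'⟩ := e2
    have h5 : u' * v' = z ^ 2 := by
      apply mul_left_cancel₀ (mul_ne_zero hq1z hq2z)
      have : (q₁ : ℤ) * q₂ * z ^ 2 = u * (u + 1) := by rw [huz, hDD]
      rw [this, hv', hu']; ring
    have hu'0 : 0 < u' := by rw [hu'] at hu0; exact pos_of_mul_pos' hu0 hq1pos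
    have hv'0 : 0 < v' := by
      have : 0 < (q₂ : ℤ) * v' := by rw [← hv']; linarith
      exact pos_of_mul_pos' this hq2pos
    obtain ⟨a, b, ha, hb⟩ := sq_parts hu'0 hv'0 ⟨-q₁, q₂, by linear_combination hu' - hv'⟩ h5
    exact ⟨a, b, Or.inr (by rw [← ha, ← hb]; linear_combination hv' - hu')⟩
  · -- `q₁ ∣ u + 1`, `q₂ ∣ u`
    obtain ⟨v', hv'⟩ := e1
    obtain ⟨u', hu'⟩ := e2
    have h5 : u' * v' = z ^ 2 := by
      apply mul_left_cancel₀ (mul_ne_zero hq1z hq2z)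
      have : (q₁ : ℤ) * q₂ * z ^ 2 = u * (u + 1) := by rw [huz, hDD]
      rw [this, hv', hu']; ring
    have hu'0 : 0 < u' := by rw [hu'] at hu0; exact pos_of_mul_pos' hu0 hq2pos
    have hv'0 : 0 < v' := by
      have : 0 < (q₁ : ℤ) * v' := by rw [← hv']; linarith
      exact pos_of_mul_pos' this hq1pos
    obtain ⟨a, b, ha, hb⟩ := sq_parts hu'0 hv'0 ⟨-q₂, q₁, by linear_combination hu' - hv'⟩ h5
    exact ⟨b, a, Or.inl (by rw [← ha, ← hb]; linear_combination hu' - hv')⟩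
  · -- both divide `u + 1`
    exfalso
    obtain ⟨v', hv'⟩ := hcop.mul_dvd e1 e2
    rw [← hDD] at hv'
    have h5 : u * v' = z ^ 2 := by
      apply mul_left_cancel₀ hD0.ne'
      rw [← huz, hv']; ring
    have hv'0 : 0 < v' := by
      have : 0 < D * v' := by rw [← hv']; linarith
      exact pos_of_mul_pos' this hD0
    obtain ⟨a, b, ha, hb⟩ := sq_parts hu0 hv'0 ⟨-1, D, by linear_combination -hv'⟩ h5
    haveI := Fact.mk h1
    have h6 : IsSquare (-1 : ZMod q₁) := by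
      refine ⟨(a : ZMod q₁), ?_⟩
      have h7 : a ^ 2 + 1 = (q₁ : ℤ) * q₂ * v' := by rw [← ha, hv', hDD]
      have h9 : ((a ^ 2 + 1 : ℤ) : ZMod q₁) = (((q₁ : ℤ) * q₂ * v' : ℤ) : ZMod q₁) := by rw [h7]
      push_cast at h9
      rw [ZMod.natCast_self] at h9
      linear_combination -h9
    exact (ZMod.exists_sq_eq_neg_one_iff.mp h6) h14

end Pool.Agent.N156.PQ
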