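import Pool.Agent.N156.PQ.O
import Pool.Agent.N156.PQ.P

namespace Pool.Agent.N156.PQ

open H419R2 NumberField Module

/-- Under (1) each non-inert prime below `√D / 2` is the norm of an integer. -/
theorem exists_rep2 {q₁ q₂ : ℕ} (h1 : q₁.Prime) (h2 : q₂.Prime) (hlt : q₁ < q₂)
    (h14 : q₁ % 4 = 3) (h24 : q₂ % 4 = 3) (h8 : (q₁ * q₂) % 8 = 5)
    {g h η : ℤ} (hη : η = 1 ∨ η = -1) (hgh : (q₁ : ℤ) * g ^ 2 - q₂ * h ^ 2 = 4 * η) (hpar : g % 2 = h % 2)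
    (H : ∀ n : ℕ, 4 * (2 * (n : ℤ) + 1) ^ 2 < (q₁ : ℤ) * q₂ → (F q₁ q₂ n).natAbs = 1 ∨ (F q₁ q₂ n).natAbs.Prime)
    {p : ℕ} (hp : p.Prime) (hpD : 4 * (p : ℤ) ^ 2 < (q₁ : ℤ) * q₂) {w R : ℤ}
    (hR : (q₁ : ℤ) * q₂ = 1 + 4 * R) (hw : (p : ℤ) ∣ w ^ 2 + w - R) :
    ∃ a b : ℤ, |a ^ 2 - (q₁ : ℤ) * q₂ * b ^ 2| = 4 * (p : ℤ) := by
  have h1o : (q₁ : ℤ) % 2 = 1 := by omega
  have h2o : (q₂ : ℤ) % 2 = 1 := by omega
  by_cases hpq : p = q₁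
  · refine ⟨q₁ * g, h, ?_⟩
    have : ((q₁ : ℤ) * g) ^ 2 - (q₁ : ℤ) * q₂ * h ^ 2 = 4 * q₁ * η := by linear_combination (q₁ : ℤ) * hgh
    rw [this, hpq, abs_mul]
    rcases hη with e | e <;> rw [e] <;> simp
  have hRo : R % 2 = 1 := by
    have : ((q₁ * q₂ : ℕ) : ℤ) % 8 = 5 := by omega
    push_cast at this
    omega
  have hpo : (p : ℤ) % 2 = 1 := by
    rcases hp.eq_two_or_odd with e | e
    · exfalso
      rw [e] at hw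
      obtain ⟨k, hk⟩ := Int.even_mul_succ_self w
      have : (w ^ 2 + w - R) % 2 = 0 := Int.emod_eq_zero_of_dvd (by exact_mod_cast hw)
      have e2 : w ^ 2 + w = k + k := by rw [← hk]; ring
      omega
    · omega
  have hpq2 : p ≠ q₂ := by
    rintro rfl
    have : (q₁ : ℤ) < p := by exact_mod_cast hlt
    have : (0 : ℤ) < q₁ := by exact_mod_cast h1.pos
    nlinarith
  -- inverse of `q₁`
  have hcop : IsCoprime (q₁ : ℤ) (p : ℤ) := by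
    rw [Nat.isCoprime_iff_coprime]
    exact (Nat.coprime_primes h1 hp).mpr (fun e => hpq e.symm)
  obtain ⟨u, v, huv⟩ := hcop
  obtain ⟨s, hs1, hs2, hso, hsd⟩ := exists_s' (c := (2 * w + 1) * u) (r := (p : ℤ)) (by exact_mod_cast hp.pos) hpo
  -- `p ∣ q₁ s² - q₂`
  have hd1 : (p : ℤ) ∣ (q₁ : ℤ) * (q₁ * s ^ 2 - q₂) := by
    have e1 : (q₁ : ℤ) * (q₁ * s ^ 2 - q₂) = q₁ ^ 2 * (s ^ 2 - ((2 * w + 1) * u) ^ 2) +
        ((2 * w + 1) ^ 2 * (u * q₁ - 1) * (u * q₁ + 1)) + 4 * (w ^ 2 + w - R) := by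
      linear_combination -hR
    have e2 : u * q₁ - 1 = (p : ℤ) * (-v) := by linear_combination huv
    rw [e1, e2]
    refine dvd_add (dvd_add (hsd.mul_left _) ?_) (hw.mul_left _)
    exact ⟨(2 * w + 1) ^ 2 * (-v) * (u * q₁ + 1), by ring⟩
  have hpz : Prime (p : ℤ) := Nat.prime_iff_prime_int.mp hp
  have hnq1 : ¬ (p : ℤ) ∣ (q₁ : ℤ) := by
    intro hh
    exact hpq ((Nat.prime_dvd_prime_iff_eq hp h1).mp (by exact_mod_cast hh))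
  have hd2 : (p : ℤ) ∣ (q₁ : ℤ) * s ^ 2 - q₂ := (hpz.dvd_or_dvd hd1).resolve_left hnq1
  obtain ⟨n, hn⟩ : ∃ n : ℕ, 2 * (n : ℤ) + 1 = s := ⟨((s - 1) / 2).toNat, by omega⟩
  have hs2' : s ^ 2 ≤ (p : ℤ) ^ 2 := pow_le_pow_left₀ (by linarith) hs2 2
  have hFn := four_F h14 h24 n
  rw [hn] at hFn
  have hpF : (p : ℤ) ∣ F q₁ q₂ n := by
    have h5 : (p : ℤ) ∣ 4 * F q₁ q₂ n := by rw [hFn]; exact hd2
    exact (cop4 hpo).dvd_of_dvd_mul_left h5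
  have hfin := prime_of_dvd hp hpF (H n (by rw [hn]; linarith))
  have habs : |(q₁ : ℤ) * s ^ 2 - q₂| = 4 * (p : ℤ) := by
    rw [← hFn, abs_mul, ← hfin, Int.natCast_natAbs]; norm_num
  -- type II to type I
  obtain ⟨a, ha⟩ : ∃ a : ℤ, q₁ * s * g - h * q₂ = 2 * a := by
    have : ((q₁ : ℤ) * s * g - h * q₂) % 2 = 0 := by
      rcases Int.emod_two_eq_zero_or_one g with e | e <;> rw [e] at hpar <;>
        simp [Int.sub_emod, Int.mul_emod, h1o, h2o, hso, e, ← hpar]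
    exact ⟨(q₁ * s * g - h * q₂) / 2, by omega⟩
  obtain ⟨b, hb⟩ : ∃ b : ℤ, g - h * s = 2 * b := by
    have : (g - h * s) % 2 = 0 := by
      rcases Int.emod_two_eq_zero_or_one g with e | e <;> rw [e] at hpar <;>
        simp [Int.sub_emod, Int.mul_emod, hso, e, ← hpar]
    exact ⟨(g - h * s) / 2, by omega⟩
  refine ⟨a, b, ?_⟩
  have hnorm : a ^ 2 - (q₁ : ℤ) * q₂ * b ^ 2 = (q₁ * s ^ 2 - q₂) * η := by
    have h4 : 4 * (a ^ 2 - (q₁ : ℤ) * q₂ * b ^ 2) = (q₁ * s ^ 2 - q₂) * (4 * η) := by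
      have : 4 * (a ^ 2 - (q₁ : ℤ) * q₂ * b ^ 2) = (2 * a) ^ 2 - q₁ * q₂ * (2 * b) ^ 2 := by ring
      rw [this, ← ha, ← hb, ← hgh]; ring
    linarith
  rw [hnorm, abs_mul, habs]
  rcases hη with e | e <;> rw [e] <;> simp

/-- `(1) ⇒ h = 1`. -/
theorem class_one2 {q₁ q₂ : ℕ} (h1 : q₁.Prime) (h2 : q₂.Prime) (hlt : q₁ < q₂)
    (h14 : q₁ % 4 = 3) (h24 : q₂ % 4 = 3) (h8 : (q₁ * q₂) % 8 = 5)
    {K : Type*} [Field K] [NumberField K] (hK : finrank ℚ K = 2) {x : K}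
    (hx : x ^ 2 = ((q₁ * q₂ : ℕ) : K))
    (H : ∀ n : ℕ, 4 * (2 * (n : ℤ) + 1) ^ 2 < (q₁ : ℤ) * q₂ → (F q₁ q₂ n).natAbs = 1 ∨ (F q₁ q₂ n).natAbs.Prime) :
    NumberField.classNumber K = 1 := by
  have hDz : ((q₁ * q₂ : ℕ) : ℤ) = 1 ^ 2 + 4 * ((((q₁ * q₂ : ℕ) : ℤ) - 1) / 4) := by omega
  have hsf : Squarefree ((q₁ * q₂ : ℕ) : ℤ) := by
    rw [Int.squarefree_natCast]
    exact (Nat.squarefree_mul ((Nat.coprime_primes h1 h2).mpr (by omega))).mpr ⟨h1.squarefree, h2.squarefree⟩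
  have hD1 : (1 : ℤ) < ((q₁ * q₂ : ℕ) : ℤ) := by
    have : 1 * 1 < q₁ * q₂ := Nat.mul_lt_mul'' h1.one_lt h2.one_lt
    exact_mod_cast this
  have hxz : x ^ 2 = ((((q₁ * q₂ : ℕ) : ℤ)) : K) := by rw [hx]; simp
  obtain ⟨e⟩ := exists_equiv (m := 1) (by norm_num) hDz hsf hD1 hK hxz
  have hdisc := discr_eq hDz e
  have htr := totReal (not_sq_of_squarefree hsf hD1) (by linarith) hK hxz
  have hr2 : InfinitePlace.nrComplexPlaces K = 0 := IsTotallyReal.nrComplexPlaces_eq_zero K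
  rw [NumberField.classNumber_eq_one_iff]
  apply RingOfIntegers.isPrincipalIdealRing_of_isPrincipal_of_norm_le_of_isPrime
  intro I hI hnorm
  rw [hr2, hK, hdisc] at hnorm
  have hN0 : 0 < Ideal.absNorm (I : Ideal (𝓞 K)) := Ideal.absNorm_pos_of_nonZeroDivisors I
  obtain ⟨p, hp, hple, hpP⟩ := exists_prime_mem hI _ hN0 (Ideal.absNorm_mem _)
  have hb : 2 * (p : ℝ) ≤ √((q₁ * q₂ : ℕ) : ℝ) := by
    have h5 : (p : ℝ) ≤ (Ideal.absNorm (I : Ideal (𝓞 K)) : ℝ) := by exact_mod_cast hple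
    have h6 : |((((q₁ * q₂ : ℕ) : ℤ)) : ℝ)| = ((q₁ * q₂ : ℕ) : ℝ) := by
      rw [Int.cast_natCast, abs_of_nonneg (by positivity)]
    rw [h6] at hnorm
    generalize √((q₁ * q₂ : ℕ) : ℝ) = S at hnorm ⊢
    norm_num [Nat.factorial] at hnorm
    linarith
  have hpD : 4 * (p : ℤ) ^ 2 < (q₁ : ℤ) * q₂ := by
    have h5 : (2 * (p : ℝ)) ^ 2 ≤ ((q₁ * q₂ : ℕ) : ℝ) := by
      have := pow_le_pow_left₀ (by positivity) hb 2
      rwa [Real.sq_sqrt (by positivity)] at this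
    have h6 : 4 * p ^ 2 ≤ q₁ * q₂ := by
      have : ((4 * p ^ 2 : ℕ) : ℝ) ≤ ((q₁ * q₂ : ℕ) : ℝ) := by push_cast at h5 ⊢; linarith
      exact_mod_cast this
    have h7 : 4 * p ^ 2 ≠ q₁ * q₂ := by omega
    have h8' : 4 * p ^ 2 < q₁ * q₂ := lt_of_le_of_ne h6 h7
    exact_mod_cast h8'
  apply principal_of_prime e _ hI hp hpP
  intro w hw
  obtain ⟨g, h, η, hη, hgh, hpar0⟩ : ∃ g h η : ℤ, (η = 1 ∨ η = -1) ∧ (q₁ : ℤ) * g ^ 2 - q₂ * h ^ 2 = 4 * η ∧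
      g % 2 = h % 2 := by
    obtain ⟨g, h, e | e⟩ := rep_unit h1 h2 hlt.ne h14 h8
    · exact ⟨2 * g, 2 * h, 1, Or.inl rfl, by linear_combination 4 * e, by omega⟩
    · exact ⟨2 * g, 2 * h, -1, Or.inr rfl, by linear_combination 4 * e, by omega⟩
  obtain ⟨a, b, hab⟩ := exists_rep2 h1 h2 hlt h14 h24 h8 hη hgh hpar0 H hp hpD (R := (((q₁ * q₂ : ℕ) : ℤ) - 1) / 4) (w := w)
    (by rw [← Nat.cast_mul]; linarith) (by simpa using hw)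
  have hDo : ((q₁ : ℤ) * q₂) % 2 = 1 := by
    have : ((q₁ * q₂ : ℕ) : ℤ) % 2 = 1 := by omega
    rwa [Nat.cast_mul] at this
  have hpar := odd_par hDo hab
  obtain ⟨c, hc⟩ : ∃ c : ℤ, a - b = 2 * c := ⟨(a - b) / 2, by omega⟩
  refine ⟨⟨c, b⟩, ?_⟩
  have h9 : 4 * QuadraticAlgebra.norm (⟨c, b⟩ : QA ((((q₁ * q₂ : ℕ) : ℤ) - 1) / 4) 1) =
      a ^ 2 - (q₁ : ℤ) * q₂ * b ^ 2 := by
    rw [QuadraticAlgebra.norm_def]
    have ha : a = 2 * c + b := by linarith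
    rw [ha, ← Nat.cast_mul]
    simp only
    linear_combination b ^ 2 * hDz
  have h10 : |QuadraticAlgebra.norm (⟨c, b⟩ : QA ((((q₁ * q₂ : ℕ) : ℤ) - 1) / 4) 1)| = (p : ℤ) := by
    rw [← h9, abs_mul] at hab
    norm_num at hab
    exact hab
  have h11 := Int.natCast_natAbs (QuadraticAlgebra.norm (⟨c, b⟩ : QA ((((q₁ * q₂ : ℕ) : ℤ) - 1) / 4) 1))
  rw [h10] at h11
  exact_mod_cast h11

end Pool.Agent.N156.PQ
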